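import Mathlib
import Pool.Agent.H826R2.Wein.Stmt

/-! Definitions for the statement: smooth actions of products of groups `SL₂(ℝ)`, `SL₂(ℂ)` which
preserve a one-form. -/

open scoped Topology ContDiff Manifold Matrix
open Set Pool.Agent.H826R2.WStmt

noncomputable section

namespace Run7.h986.NS

/-- the traceless matrix with entries `v 0, v 1; v 2, -v 0` -/
def sl {K : Type*} [RCLike K] (v : Fin 3 → K) : Matrix (Fin 2) (Fin 2) K :=
  !![v 0, v 1; v 2, -v 0]

section

open scoped Matrix.Norms.Operator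

lemma exp_mul_exp_neg {K : Type*} [RCLike K] (A : Matrix (Fin 2) (Fin 2) K) :
    NormedSpace.exp A * NormedSpace.exp (-A) = 1 := by
  let _ : NormedAlgebra ℚ K := NormedAlgebra.restrictScalars ℚ ℝ K
  rw [← Matrix.exp_add_of_commute A (-A) (Commute.refl A).neg_right, add_neg_cancel,
    NormedSpace.exp_zero]

end

lemma adj_exp {K : Type*} [RCLike K] (v : Fin 3 → K) :
    (NormedSpace.exp (sl v)).adjugate = NormedSpace.exp (-(sl v)) := by
  let _ : NormedAlgebra ℚ K := NormedAlgebra.restrictScalars ℚ ℝ K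
  set J : Matrix (Fin 2) (Fin 2) K := !![0, 1; -1, 0] with hJ
  have hJu : IsUnit J := by
    rw [Matrix.isUnit_iff_isUnit_det]
    simp [hJ, Matrix.det_fin_two]
  have hJi : J⁻¹ = !![0, -1; 1, 0] := by
    apply Matrix.inv_eq_right_inv
    rw [hJ]
    ext i j
    fin_cases i <;> fin_cases j <;> simp [Matrix.mul_apply, Fin.sum_univ_two]
  have key : ∀ X : Matrix (Fin 2) (Fin 2) K, X.adjugate = J * Xᵀ * J⁻¹ := by
    intro X
    rw [hJi, Matrix.adjugate_fin_two, hJ]
    ext i j
    fin_cases i <;> fin_cases j <;> simp [Matrix.mul_apply, Matrix.vecMul, dotProduct,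
      Fin.sum_univ_two]
  rw [key, ← Matrix.exp_transpose, ← Matrix.exp_conj _ _ hJu, ← key]
  congr 1
  rw [Matrix.adjugate_fin_two]
  ext i j
  fin_cases i <;> fin_cases j <;> simp [sl]

lemma det_exp_sl {K : Type*} [RCLike K] (v : Fin 3 → K) :
    (NormedSpace.exp (sl v)).det = 1 := by
  have h1 := Matrix.mul_adjugate (NormedSpace.exp (sl v))
  rw [adj_exp, exp_mul_exp_neg] at h1
  have h2 := congrFun (congrFun h1 0) 0
  simpa using h2.symm

/-- the exponential of `sl v`, an element of `SL₂(K)` -/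
def expSL {K : Type*} [RCLike K] (v : Fin 3 → K) : Matrix.SpecialLinearGroup (Fin 2) K :=
  ⟨NormedSpace.exp (sl v), det_exp_sl v⟩

variable {ι : Type*}

/-- the product of the groups `SL₂(K j)` -/
abbrev Grp (K : ι → Type*) [∀ j, RCLike (K j)] : Type _ :=
  ∀ j, Matrix.SpecialLinearGroup (Fin 2) (K j)

/-- the Lie algebra of `Grp K` in coordinates: a triple of numbers in `K j` for each `j` -/
abbrev Lie (K : ι → Type*) : Type _ := ∀ j, Fin 3 → K j

/-- the exponential map of `Grp K` -/
def expG {K : ι → Type*} [∀ j, RCLike (K j)] (v : Lie K) : Grp K := fun j => expSL (v j)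

/-- A smooth action of the group `Grp K` on the manifold `P` which preserves the one-form `β`:
the action is continuous, every element of the group acts by a smooth map preserving `β`, and
`(v, x) ↦ exp v • x` is smooth. -/
structure SmoothStrictAction [Fintype ι] (K : ι → Type*) [∀ j, RCLike (K j)]
    {E : Type*} [NormedAddCommGroup E] [NormedSpace ℝ E]
    {P : Type*} [TopologicalSpace P] [ChartedSpace E P] [MulAction (Grp K) P]
    (β : P → Cov E) : Prop where
  cont : Continuous (fun p : Grp K × P => p.1 • p.2)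
  smooth : ∀ g : Grp K, ContMDiff 𝓘(ℝ, E) 𝓘(ℝ, E) ∞ (fun x : P => g • x)
  smooth_exp : ContMDiff (𝓘(ℝ, Lie K).prod 𝓘(ℝ, E)) 𝓘(ℝ, E) ∞
    (fun p : Lie K × P => expG p.1 • p.2)
  strict : ∀ g : Grp K, pull (fun x : P => g • x) β = β

/-- `Γ` is cocompact: `G = Γ L` for a compact set `L`. -/
def Cocompact {G : Type*} [Group G] [TopologicalSpace G] (Γ : Subgroup G) : Prop :=
  ∃ L : Set G, IsCompact L ∧ ∀ g : G, ∃ γ ∈ Γ, ∃ l ∈ L, g = γ * l

end Run7.h986.NS
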