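import Mathlib
import Pool.Agent.Run7.h986.NS.Defs

/-! Exponentials of traceless `2 × 2` matrices. -/

open scoped Matrix
open Set

noncomputable section

namespace Run7.h986.NS

variable {K : Type*} [RCLike K]

/-- minus the determinant of `sl v` -/
def qf (v : Fin 3 → K) : K := v 0 ^ 2 + v 1 * v 2

lemma sl_mul_self (v : Fin 3 → K) : sl v * sl v = qf v • (1 : Matrix (Fin 2) (Fin 2) K) := by
  ext i j
  fin_cases i <;> fin_cases j <;> simp [sl, qf, Matrix.mul_apply, Fin.sum_univ_two] <;> ring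

lemma sl_smul (t : ℝ) (v : Fin 3 → K) : sl (t • v) = t • sl v := by
  ext i j
  fin_cases i <;> fin_cases j <;> simp [sl]

lemma sl_inj {v w : Fin 3 → K} (h : sl v = sl w) : v = w := by
  have h1 := congrFun (congrFun h 0) 0
  have h2 := congrFun (congrFun h 0) 1
  have h3 := congrFun (congrFun h 1) 0
  ext i
  fin_cases i
  · simpa [sl] using h1
  · simpa [sl] using h2
  · simpa [sl] using h3

lemma exists_sl {A : Matrix (Fin 2) (Fin 2) K} (h : A.trace = 0) : ∃ v, sl v = A := by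
  refine ⟨![A 0 0, A 0 1, A 1 0], ?_⟩
  rw [Matrix.trace_fin_two] at h
  have h2 : A 1 1 = - A 0 0 := by linear_combination h
  ext i j
  fin_cases i <;> fin_cases j <;> simp [sl, h2]

section

open scoped Matrix.Norms.Operator

/-- uniqueness of the exponential -/
lemma exp_unique {A : Matrix (Fin 2) (Fin 2) K} {f : ℝ → Matrix (Fin 2) (Fin 2) K}
    (h0 : f 0 = 1) (h : ∀ t, HasDerivAt f (A * f t) t) (t : ℝ) :
    f t = NormedSpace.exp (t • A) := by
  let _ : NormedAlgebra ℚ K := NormedAlgebra.restrictScalars ℚ ℝ K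
  have h1 : ∀ t : ℝ, HasDerivAt (fun t : ℝ => NormedSpace.exp (t • (-A)) * f t) 0 t := by
    intro t
    have h2 := (hasDerivAt_exp_smul_const (𝕂 := ℝ) (-A) t).mul (h t)
    refine h2.congr_deriv ?_
    rw [mul_neg, neg_mul, mul_assoc, neg_add_cancel]
  have h2 : ∀ t : ℝ, NormedSpace.exp (t • (-A)) * f t = 1 := by
    intro t
    have h3 := is_const_of_deriv_eq_zero (𝕜 := ℝ)
      (f := fun t : ℝ => NormedSpace.exp (t • (-A)) * f t)
      (fun t => (h1 t).differentiableAt) (fun t => (h1 t).deriv) t 0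
    rw [h3, h0, zero_smul, NormedSpace.exp_zero, one_mul]
  have h3 := exp_mul_exp_neg (t • A)
  have h4 : NormedSpace.exp (-(t • A)) * f t = 1 := by
    rw [← smul_neg]; exact h2 t
  calc f t = (NormedSpace.exp (t • A) * NormedSpace.exp (-(t • A))) * f t := by rw [h3, one_mul]
    _ = NormedSpace.exp (t • A) := by rw [mul_assoc, h4, mul_one]

lemma exp_add_smul (A : Matrix (Fin 2) (Fin 2) K) (s t : ℝ) :
    NormedSpace.exp ((s + t) • A) = NormedSpace.exp (s • A) * NormedSpace.exp (t • A) := by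
  let _ : NormedAlgebra ℚ K := NormedAlgebra.restrictScalars ℚ ℝ K
  rw [add_smul]
  exact Matrix.exp_add_of_commute _ _ (((Commute.refl A).smul_left s).smul_right t)

/-- rotations -/
lemma exp_of_sq_neg {A : Matrix (Fin 2) (Fin 2) K} {ω : ℝ} (hω : ω ≠ 0)
    (h : A * A = (-(ω ^ 2) : ℝ) • (1 : Matrix (Fin 2) (Fin 2) K)) :
    NormedSpace.exp ((2 * Real.pi / ω) • A) = 1 := by
  have h1 := exp_unique (A := A) (f := fun t : ℝ => Real.cos (ω * t) •
    (1 : Matrix (Fin 2) (Fin 2) K) + (Real.sin (ω * t) / ω) • A) (by simp) (by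
      intro t
      have hl : HasDerivAt (fun t : ℝ => ω * t) ω t := by
        simpa using (hasDerivAt_id t).const_mul ω
      have hc := (Real.hasDerivAt_cos (ω * t)).comp t hl
      have hs := ((Real.hasDerivAt_sin (ω * t)).comp t hl).div_const ω
      have h2 := (hc.smul_const (1 : Matrix (Fin 2) (Fin 2) K)).add (hs.smul_const A)
      refine h2.congr_deriv ?_
      rw [mul_add, mul_smul_comm, mul_one, mul_smul_comm, h, smul_smul, add_comm]
      congr 1
      · congr 1; field_simp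
      · congr 1; field_simp) (2 * Real.pi / ω)
  rw [← h1]
  have e : ω * (2 * Real.pi / ω) = 2 * Real.pi := by field_simp
  simp only [e, Real.cos_two_pi, Real.sin_two_pi, one_smul, zero_div, zero_smul, add_zero]

/-- nilpotent matrices -/
lemma exp_of_sq_zero {A : Matrix (Fin 2) (Fin 2) K} (h : A * A = 0) (t : ℝ) :
    NormedSpace.exp (t • A) = 1 + t • A := by
  rw [← exp_unique (A := A) (f := fun t : ℝ => 1 + t • A) (by simp) ?_ t]
  intro t
  have h2 := ((hasDerivAt_id t).smul_const A).const_add (1 : Matrix (Fin 2) (Fin 2) K)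
  refine h2.congr_deriv ?_
  rw [mul_add, mul_smul_comm, h]
  simp

/-- diagonalisable matrices -/
lemma exp_of_sq {A : Matrix (Fin 2) (Fin 2) K} {τ : K} (hτ : τ ≠ 0)
    (h : A * A = (τ ^ 2) • (1 : Matrix (Fin 2) (Fin 2) K)) (t : ℝ) :
    NormedSpace.exp (t • A) = (NormedSpace.exp (t • τ) / 2) • (1 + τ⁻¹ • A) +
      (NormedSpace.exp (t • (-τ)) / 2) • (1 - τ⁻¹ • A) := by
  rw [← exp_unique (A := A) (f := fun t : ℝ => (NormedSpace.exp (t • τ) / 2) • (1 + τ⁻¹ • A) +
      (NormedSpace.exp (t • (-τ)) / 2) • (1 - τ⁻¹ • A)) ?_ ?_ t]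
  · simp only [zero_smul, NormedSpace.exp_zero]
    rw [← smul_add]
    have : (1 + τ⁻¹ • A + (1 - τ⁻¹ • A)) = (2:K) • (1 : Matrix (Fin 2) (Fin 2) K) := by
      rw [two_smul]; abel
    rw [this, smul_smul]
    norm_num
  · intro t
    have hp := ((hasDerivAt_exp_smul_const (𝕂 := ℝ) τ t).div_const 2).smul_const
      (1 + τ⁻¹ • A)
    have hm := ((hasDerivAt_exp_smul_const (𝕂 := ℝ) (-τ) t).div_const 2).smul_const
      (1 - τ⁻¹ • A)
    refine (hp.add hm).congr_deriv ?_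
    have h1 : A * (τ⁻¹ • A) = τ • (1 : Matrix (Fin 2) (Fin 2) K) := by
      rw [mul_smul_comm, h, smul_smul]
      congr 1
      field_simp
    rw [mul_add, mul_smul_comm, mul_smul_comm, mul_add, mul_sub, mul_one, h1]
    have h2 : τ • (1 + τ⁻¹ • A) = A + τ • (1 : Matrix (Fin 2) (Fin 2) K) := by
      rw [smul_add, smul_smul, mul_inv_cancel₀ hτ, one_smul, add_comm]
    have h3 : τ • (1 - τ⁻¹ • A) = -(A - τ • (1 : Matrix (Fin 2) (Fin 2) K)) := by
      rw [smul_sub, smul_smul, mul_inv_cancel₀ hτ, one_smul, neg_sub]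
    have e1 : (NormedSpace.exp (t • τ) * τ / 2) • (1 + τ⁻¹ • A) =
        (NormedSpace.exp (t • τ) / 2) • (τ • (1 + τ⁻¹ • A)) := by
      rw [smul_smul]; congr 1; ring
    have e2 : (NormedSpace.exp (t • (-τ)) * (-τ) / 2) • (1 - τ⁻¹ • A) =
        -((NormedSpace.exp (t • (-τ)) / 2) • (τ • (1 - τ⁻¹ • A))) := by
      rw [smul_smul, ← neg_smul]; congr 1; ring
    rw [e1, e2, h2, h3, smul_neg, neg_neg]

end

lemma expSL_zero : expSL (0 : Fin 3 → K) = 1 := by
  apply Subtype.ext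
  show NormedSpace.exp (sl 0) = 1
  have : sl (0 : Fin 3 → K) = 0 := by
    ext i j
    fin_cases i <;> fin_cases j <;> simp [sl]
  rw [this, NormedSpace.exp_zero]

lemma expSL_add (v : Fin 3 → K) (s t : ℝ) :
    expSL ((s + t) • v) = expSL (s • v) * expSL (t • v) := by
  apply Subtype.ext
  show NormedSpace.exp (sl _) = NormedSpace.exp (sl _) * NormedSpace.exp (sl _)
  rw [sl_smul, sl_smul, sl_smul, exp_add_smul]

/-- the adjoint representation in coordinates -/
def Ad (g : Matrix.SpecialLinearGroup (Fin 2) K) (v : Fin 3 → K) : Fin 3 → K :=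
  ![((g : Matrix (Fin 2) (Fin 2) K) * sl v * (g⁻¹ : Matrix.SpecialLinearGroup (Fin 2) K)) 0 0,
    ((g : Matrix (Fin 2) (Fin 2) K) * sl v * (g⁻¹ : Matrix.SpecialLinearGroup (Fin 2) K)) 0 1,
    ((g : Matrix (Fin 2) (Fin 2) K) * sl v * (g⁻¹ : Matrix.SpecialLinearGroup (Fin 2) K)) 1 0]

lemma coe_mul_inv (g : Matrix.SpecialLinearGroup (Fin 2) K) :
    (g : Matrix (Fin 2) (Fin 2) K) * ((g⁻¹ : Matrix.SpecialLinearGroup (Fin 2) K) :
      Matrix (Fin 2) (Fin 2) K) = 1 := by
  rw [← Matrix.SpecialLinearGroup.coe_mul, mul_inv_cancel, Matrix.SpecialLinearGroup.coe_one]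

lemma coe_inv_mul (g : Matrix.SpecialLinearGroup (Fin 2) K) :
    ((g⁻¹ : Matrix.SpecialLinearGroup (Fin 2) K) : Matrix (Fin 2) (Fin 2) K) *
      (g : Matrix (Fin 2) (Fin 2) K) = 1 := by
  rw [← Matrix.SpecialLinearGroup.coe_mul, inv_mul_cancel, Matrix.SpecialLinearGroup.coe_one]

lemma sl_trace (v : Fin 3 → K) : (sl v).trace = 0 := by
  rw [Matrix.trace_fin_two]; simp [sl]

lemma sl_Ad (g : Matrix.SpecialLinearGroup (Fin 2) K) (v : Fin 3 → K) :
    sl (Ad g v) = (g : Matrix (Fin 2) (Fin 2) K) * sl v *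
      (g⁻¹ : Matrix.SpecialLinearGroup (Fin 2) K) := by
  have htr : ((g : Matrix (Fin 2) (Fin 2) K) * sl v *
      (g⁻¹ : Matrix.SpecialLinearGroup (Fin 2) K)).trace = 0 := by
    rw [Matrix.trace_mul_comm, ← mul_assoc, coe_inv_mul, one_mul, sl_trace]
  set B := (g : Matrix (Fin 2) (Fin 2) K) * sl v *
      (g⁻¹ : Matrix.SpecialLinearGroup (Fin 2) K) with hB
  rw [Matrix.trace_fin_two] at htr
  have h2 : B 1 1 = - B 0 0 := by linear_combination htr
  have h3 : Ad g v = ![B 0 0, B 0 1, B 1 0] := rfl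
  rw [h3]
  clear_value B
  ext i j
  fin_cases i <;> fin_cases j <;> simp [sl, h2]

lemma Ad_smul (g : Matrix.SpecialLinearGroup (Fin 2) K) (t : ℝ) (v : Fin 3 → K) :
    Ad g (t • v) = t • Ad g v := by
  apply sl_inj
  rw [sl_smul, sl_Ad, sl_Ad, sl_smul, mul_smul_comm, smul_mul_assoc]

lemma conj_expSL (g : Matrix.SpecialLinearGroup (Fin 2) K) (v : Fin 3 → K) :
    g * expSL v = expSL (Ad g v) * g := by
  apply Subtype.ext
  rw [Matrix.SpecialLinearGroup.coe_mul, Matrix.SpecialLinearGroup.coe_mul]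
  show (g : Matrix (Fin 2) (Fin 2) K) * NormedSpace.exp (sl v) =
    NormedSpace.exp (sl (Ad g v)) * (g : Matrix (Fin 2) (Fin 2) K)
  let _ : NormedAlgebra ℚ K := NormedAlgebra.restrictScalars ℚ ℝ K
  have hg : IsUnit (g : Matrix (Fin 2) (Fin 2) K) := by
    rw [Matrix.isUnit_iff_isUnit_det]
    simp
  have hinv : ((g⁻¹ : Matrix.SpecialLinearGroup (Fin 2) K) : Matrix (Fin 2) (Fin 2) K) =
      (g : Matrix (Fin 2) (Fin 2) K)⁻¹ := (Matrix.inv_eq_right_inv (coe_mul_inv g)).symm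
  rw [sl_Ad, hinv, Matrix.exp_conj _ _ hg, ← hinv, mul_assoc, mul_assoc, coe_inv_mul, mul_one]

end Run7.h986.NS
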