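import Mathlib
import Pool.Agent.Run7.h986.NS.M2

/-! Conjugacy of traceless `2 × 2` matrices and logarithms. -/

open scoped Matrix
open Set

noncomputable section

namespace Run7.h986.NS

variable {K : Type*} [RCLike K]

/-- the diagonal element -/
def dg (τ : K) : Fin 3 → K := ![τ, 0, 0]

lemma Ad_of_mul {g : Matrix.SpecialLinearGroup (Fin 2) K} {v w : Fin 3 → K}
    (h : (g : Matrix (Fin 2) (Fin 2) K) * sl v = sl w * (g : Matrix (Fin 2) (Fin 2) K)) :
    Ad g v = w := by
  apply sl_inj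
  rw [sl_Ad, h, mul_assoc, coe_mul_inv, mul_one]

lemma exists_diag {v : Fin 3 → K} {τ : K} (hτ : τ ≠ 0) (h : qf v = τ ^ 2) :
    ∃ k : Matrix.SpecialLinearGroup (Fin 2) K, Ad k (dg τ) = v := by
  unfold qf at h
  by_cases h0 : v 0 + τ = 0
  · have hv0 : v 0 = -τ := by linear_combination h0
    have hbc : v 1 * v 2 = 0 := by
      rw [hv0] at h
      linear_combination h
    have hdet : (!![v 1, -2 * τ * (1 / (4 * τ ^ 2)); 2 * τ, v 2 * (1 / (4 * τ ^ 2))] :
        Matrix (Fin 2) (Fin 2) K).det = 1 := by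
      rw [Matrix.det_fin_two]
      simp only [Matrix.of_apply, Matrix.cons_val', Matrix.cons_val_zero, Matrix.cons_val_one,
        Matrix.cons_val_fin_one]
      have : v 1 * (v 2 * (1 / (4 * τ ^ 2))) = 0 := by
        rw [← mul_assoc, hbc, zero_mul]
      rw [this]
      field_simp
      ring
    refine ⟨⟨_, hdet⟩, Ad_of_mul ?_⟩
    ext i j
    fin_cases i <;> fin_cases j <;>
      simp [sl, dg, Matrix.mul_apply, Fin.sum_univ_two, hv0]
    · ring
    · linear_combination (-((τ ^ 2)⁻¹ * 4⁻¹)) * hbc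
    · rw [mul_comm (v 2) (v 1), hbc]; ring
    · field_simp; ring
  · have hdet : (!![v 0 + τ, v 1 * (-1 / (2 * τ * (v 0 + τ))); v 2,
        -(v 0 + τ) * (-1 / (2 * τ * (v 0 + τ)))] :
        Matrix (Fin 2) (Fin 2) K).det = 1 := by
      rw [Matrix.det_fin_two]
      simp only [Matrix.of_apply, Matrix.cons_val', Matrix.cons_val_zero, Matrix.cons_val_one,
        Matrix.cons_val_fin_one]
      field_simp
      linear_combination h
    refine ⟨⟨_, hdet⟩, Ad_of_mul ?_⟩
    ext i j
    fin_cases i <;> fin_cases j <;>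
      simp [sl, dg, Matrix.mul_apply, Fin.sum_univ_two]
    · linear_combination (-1 : K) * h
    · field_simp; ring
    · ring
    · field_simp; linear_combination h

lemma Ad_mul (g h : Matrix.SpecialLinearGroup (Fin 2) K) (v : Fin 3 → K) :
    Ad (g * h) v = Ad g (Ad h v) := by
  apply sl_inj
  rw [sl_Ad, sl_Ad, sl_Ad, mul_inv_rev, Matrix.SpecialLinearGroup.coe_mul,
    Matrix.SpecialLinearGroup.coe_mul]
  simp only [mul_assoc]

lemma Ad_one (v : Fin 3 → K) : Ad 1 v = v := by
  apply sl_inj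
  rw [sl_Ad, inv_one, Matrix.SpecialLinearGroup.coe_one, one_mul, mul_one]

/-- elements with the same nonzero determinant are conjugate -/
lemma exists_conj {v w : Fin 3 → K} {τ : K} (hτ : τ ≠ 0) (hv : qf v = τ ^ 2)
    (hw : qf w = τ ^ 2) : ∃ g : Matrix.SpecialLinearGroup (Fin 2) K, Ad g v = w := by
  obtain ⟨k, hk⟩ := exists_diag hτ hv
  obtain ⟨l, hl⟩ := exists_diag hτ hw
  refine ⟨l * k⁻¹, ?_⟩
  rw [Ad_mul, ← hk, ← Ad_mul k⁻¹, inv_mul_cancel, Ad_one, hl]

lemma real_log {t : ℝ} (ht : 2 < t) : ∃ s : ℝ, Real.exp s + Real.exp (-s) = t := by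
  have h4 : 0 ≤ t ^ 2 - 4 := by nlinarith
  set r := Real.sqrt (t ^ 2 - 4) with hr
  have hr0 : 0 ≤ r := Real.sqrt_nonneg _
  have hr2 : r ^ 2 = t ^ 2 - 4 := Real.sq_sqrt h4
  have hl : 0 < (t + r) / 2 := by linarith
  refine ⟨Real.log ((t + r) / 2), ?_⟩
  rw [Real.exp_neg, Real.exp_log hl]
  field_simp
  nlinarith

lemma complex_log (t : ℂ) : ∃ s : ℂ, Complex.exp s + Complex.exp (-s) = t := by
  obtain ⟨z, hz⟩ := Complex.cos_surjective (t / 2)
  refine ⟨z * Complex.I, ?_⟩
  rw [Complex.cos] at hz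
  rw [← neg_mul]
  linear_combination 2 * hz

lemma norm_exp_of_re_eq_zero {τ : K} (h : RCLike.re τ = 0) :
    ‖NormedSpace.exp τ‖ = 1 := by
  let _ : NormedAlgebra ℚ K := NormedAlgebra.restrictScalars ℚ ℝ K
  have h1 : (starRingEnd K) τ = -τ := by
    rw [← RCLike.re_add_im τ, h]
    simp
  have h2 : (starRingEnd K) (NormedSpace.exp τ) = NormedSpace.exp (-τ) := by
    rw [← h1]
    exact NormedSpace.map_exp (starRingEnd K) RCLike.continuous_conj τ
  have h3 : (starRingEnd K) (NormedSpace.exp τ) * NormedSpace.exp τ = 1 := by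
    rw [h2, ← NormedSpace.exp_add, neg_add_cancel, NormedSpace.exp_zero]
  have h4 := congrArg norm h3
  rw [norm_mul, RCLike.norm_conj, norm_one] at h4
  have h5 := norm_nonneg (NormedSpace.exp τ)
  nlinarith

lemma exists_tau {t : K} (ht : 2 < RCLike.re t) :
    ∃ τ : K, RCLike.re τ ≠ 0 ∧ NormedSpace.exp τ + NormedSpace.exp (-τ) = t := by
  let _ : NormedAlgebra ℚ K := NormedAlgebra.restrictScalars ℚ ℝ K
  obtain ⟨τ, hτ⟩ : ∃ τ : K, NormedSpace.exp τ + NormedSpace.exp (-τ) = t := by
    rcases RCLike.I_eq_zero_or_im_I_eq_one (K := K) with h | h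
    · obtain ⟨s, hs⟩ := real_log ht
      set e := RCLike.realLinearIsometryEquiv h
      refine ⟨e.symm s, ?_⟩
      have hc : Continuous (RCLike.realRingEquiv h).symm := e.symm.continuous
      have h1 := NormedSpace.map_exp (RCLike.realRingEquiv h).symm hc s
      have h2 := NormedSpace.map_exp (RCLike.realRingEquiv h).symm hc (-s)
      rw [← Real.exp_eq_exp_ℝ] at h1 h2
      have h3 : (e.symm s : K) = (RCLike.realRingEquiv h).symm s := rfl
      rw [h3, ← map_neg, ← h1, ← h2, ← map_add, hs]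
      exact (RCLike.realRingEquiv h).symm_apply_apply t
    · obtain ⟨s, hs⟩ := complex_log (RCLike.complexRingEquiv h t)
      set e := RCLike.complexLinearIsometryEquiv h
      refine ⟨e.symm s, ?_⟩
      have hc : Continuous (RCLike.complexRingEquiv h).symm := e.symm.continuous
      have h1 := NormedSpace.map_exp (RCLike.complexRingEquiv h).symm hc s
      have h2 := NormedSpace.map_exp (RCLike.complexRingEquiv h).symm hc (-s)
      rw [← Complex.exp_eq_exp_ℂ] at h1 h2
      have h3 : (e.symm s : K) = (RCLike.complexRingEquiv h).symm s := rfl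
      rw [h3, ← map_neg, ← h1, ← h2, ← map_add, hs]
      exact (RCLike.complexRingEquiv h).symm_apply_apply t
  refine ⟨τ, ?_, hτ⟩
  intro h0
  have h1 := norm_exp_of_re_eq_zero h0
  have h2 := norm_exp_of_re_eq_zero (τ := -τ) (by rw [map_neg, h0, neg_zero])
  have h3 : RCLike.re t ≤ ‖t‖ := RCLike.re_le_norm t
  have h4 : ‖t‖ ≤ 1 + 1 := by
    rw [← hτ]
    have := norm_add_le (NormedSpace.exp τ) (NormedSpace.exp (-τ))
    rw [h1, h2] at this
    exact this
  linarith

/-- **Logarithms.** -/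
lemma exists_log {γ : Matrix.SpecialLinearGroup (Fin 2) K}
    (h : 2 < RCLike.re ((γ : Matrix (Fin 2) (Fin 2) K).trace)) :
    ∃ (v : Fin 3 → K) (τ : K), RCLike.re τ ≠ 0 ∧ qf v = τ ^ 2 ∧ expSL v = γ := by
  obtain ⟨τ, hτ, ht⟩ := exists_tau h
  set t := (γ : Matrix (Fin 2) (Fin 2) K).trace with htd
  have hτ0 : τ ≠ 0 := fun h0 => hτ (by rw [h0]; simp)
  set l := NormedSpace.exp τ with hl
  set l' := NormedSpace.exp (-τ) with hl'
  have hll : l * l' = 1 := by
    let _ : NormedAlgebra ℚ K := NormedAlgebra.restrictScalars ℚ ℝ K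
    rw [hl, hl', ← NormedSpace.exp_add, add_neg_cancel, NormedSpace.exp_zero]
  have hd : l - l' ≠ 0 := by
    intro h0
    have h1 : l' = l := by linear_combination -h0
    rw [h1] at hll ht
    have h2 : (l - 1) * (l + 1) = 0 := by linear_combination hll
    rcases mul_eq_zero.1 h2 with h3 | h3
    · have : t = 2 := by rw [← ht]; linear_combination 2 * h3
      rw [this] at h
      simp at h
    · have : t = -2 := by rw [← ht]; linear_combination 2 * h3
      rw [this] at h
      simp at h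
      linarith
  -- Cayley-Hamilton
  set G := (γ : Matrix (Fin 2) (Fin 2) K) with hG
  have hdet : G 0 0 * G 1 1 - G 0 1 * G 1 0 = 1 := by
    have := γ.2
    rw [Matrix.det_fin_two] at this
    exact this
  have htr : t = G 0 0 + G 1 1 := by rw [htd, Matrix.trace_fin_two]
  have hCH : ((2:K) • G - t • (1 : Matrix (Fin 2) (Fin 2) K)) *
      ((2:K) • G - t • (1 : Matrix (Fin 2) (Fin 2) K)) =
      ((l - l') ^ 2) • (1 : Matrix (Fin 2) (Fin 2) K) := by
    have e : (l - l') ^ 2 = t ^ 2 - 4 := by rw [← ht]; linear_combination (-4 : K) * hll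
    rw [e]
    ext i j
    fin_cases i <;> fin_cases j <;>
      simp [Matrix.mul_apply, Fin.sum_univ_two, htr]
    · linear_combination (-4 : K) * hdet
    · ring
    · ring
    · linear_combination (-4 : K) * hdet
  obtain ⟨v, hv⟩ := exists_sl (A := (τ / (l - l')) • ((2:K) • G - t •
    (1 : Matrix (Fin 2) (Fin 2) K))) (by
      rw [Matrix.trace_smul, Matrix.trace_sub, Matrix.trace_smul, Matrix.trace_smul,
        Matrix.trace_one, ← htd]
      simp
      right
      ring)
  have hsq : sl v * sl v = (τ ^ 2) • (1 : Matrix (Fin 2) (Fin 2) K) := by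
    rw [hv, smul_mul_smul_comm, hCH, smul_smul]
    congr 1
    field_simp
  refine ⟨v, τ, hτ, ?_, ?_⟩
  · rw [sl_mul_self] at hsq
    have := congrFun (congrFun hsq 0) 0
    simpa using this
  · apply Subtype.ext
    show NormedSpace.exp (sl v) = G
    have h1 := exp_of_sq hτ0 hsq 1
    rw [one_smul, one_smul, one_smul, ← hl, ← hl', hv, smul_smul] at h1
    rw [hv, h1]
    have e1 : τ⁻¹ * (τ / (l - l')) = (l - l')⁻¹ := by field_simp
    rw [e1]
    ext i j
    fin_cases i <;> fin_cases j <;>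
      simp
    · field_simp
      rw [← ht]; ring
    · field_simp
      ring
    · field_simp
      ring
    · field_simp
      rw [← ht]; ring

end Run7.h986.NS
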