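import Mathlib
import Pool.Agent.Run7.h986.NS.M3
import Pool.Agent.H826R2.Wein.Bridge

/-! Consequences of cocompactness: hyperbolic elements, and bounded stabilisers. -/

open scoped Matrix Topology Manifold ContDiff
open Set Filter

noncomputable section

namespace Run7.h986.NS

set_option linter.unusedSectionVars false

variable {ι : Type*} {K : ι → Type*} [∀ j, RCLike (K j)]

lemma continuous_entry (j : ι) (a b : Fin 2) :
    Continuous (fun g : Grp K => ((g j : Matrix (Fin 2) (Fin 2) (K j)) a b)) := by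
  have h1 : Continuous (fun g : Grp K => g j) := continuous_apply j
  have h2 : Continuous (fun g : Matrix.SpecialLinearGroup (Fin 2) (K j) =>
      (g : Matrix (Fin 2) (Fin 2) (K j))) := continuous_subtype_val
  exact ((h2.comp h1).matrix_elem a b)

/-- the diagonal elements -/
def aEl (s : ℝ) : Grp K := fun j =>
  ⟨!![((Real.exp s : ℝ) : K j), 0; 0, ((Real.exp (-s) : ℝ) : K j)], by
    rw [Matrix.det_fin_two]
    simp only [Matrix.of_apply, Matrix.cons_val', Matrix.cons_val_zero, Matrix.cons_val_one,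
      Matrix.cons_val_fin_one, mul_zero, sub_zero]
    rw [← RCLike.ofReal_mul, ← Real.exp_add, add_neg_cancel, Real.exp_zero, RCLike.ofReal_one]⟩

lemma aEl_add (s t : ℝ) : aEl (K := K) (s + t) = aEl s * aEl t := by
  funext j
  apply Subtype.ext
  show (!![((Real.exp (s + t) : ℝ) : K j), 0; 0, ((Real.exp (-(s + t)) : ℝ) : K j)] :
    Matrix (Fin 2) (Fin 2) (K j)) = _
  have e : ((aEl s * aEl t : Grp K) j : Matrix (Fin 2) (Fin 2) (K j)) =
      !![((Real.exp s : ℝ) : K j), 0; 0, ((Real.exp (-s) : ℝ) : K j)] *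
      !![((Real.exp t : ℝ) : K j), 0; 0, ((Real.exp (-t) : ℝ) : K j)] := by
    rw [Pi.mul_apply, Matrix.SpecialLinearGroup.coe_mul]
    rfl
  show _ = ((aEl s * aEl t : Grp K) j : Matrix (Fin 2) (Fin 2) (K j))
  rw [e, neg_add, Real.exp_add, Real.exp_add]
  ext a b
  fin_cases a <;> fin_cases b <;> simp [Matrix.mul_apply, Fin.sum_univ_two]

lemma aEl_inv (s : ℝ) : (aEl (K := K) s)⁻¹ = aEl (-s) := by
  have h : aEl (K := K) (-s) * aEl s = 1 := by
    rw [← aEl_add, neg_add_cancel]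
    funext j
    apply Subtype.ext
    show (!![((Real.exp 0 : ℝ) : K j), 0; 0, ((Real.exp (-0) : ℝ) : K j)] :
      Matrix (Fin 2) (Fin 2) (K j)) = 1
    rw [neg_zero, Real.exp_zero]
    ext a b
    fin_cases a <;> fin_cases b <;> simp
  exact inv_eq_of_mul_eq_one_left h

lemma trace_aEl (s t : ℝ) (h : Grp K) (j : ι) :
    (((aEl s * h * (aEl t)⁻¹ : Grp K) j : Matrix (Fin 2) (Fin 2) (K j))).trace =
      ((Real.exp (s - t) : ℝ) : K j) * (h j : Matrix (Fin 2) (Fin 2) (K j)) 0 0 +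
      ((Real.exp (-(s - t)) : ℝ) : K j) * (h j : Matrix (Fin 2) (Fin 2) (K j)) 1 1 := by
  rw [aEl_inv, Pi.mul_apply, Matrix.SpecialLinearGroup.coe_mul, Matrix.trace_mul_comm,
    ← Matrix.SpecialLinearGroup.coe_mul, ← Pi.mul_apply, ← mul_assoc, ← aEl_add,
    Pi.mul_apply, Matrix.SpecialLinearGroup.coe_mul]
  have e : ((aEl (-t + s) : Grp K) j : Matrix (Fin 2) (Fin 2) (K j)) =
      !![((Real.exp (s - t) : ℝ) : K j), 0; 0, ((Real.exp (-(s - t)) : ℝ) : K j)] := by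
    rw [show -t + s = s - t by ring]; rfl
  rw [e, Matrix.trace_fin_two]
  simp [Matrix.mul_apply, Fin.sum_univ_two]

variable [Fintype ι]

/-- **Hyperbolic elements** of a cocompact subgroup, with logarithms. -/
theorem exists_hyperbolic {Γ : Subgroup (Grp K)} (hco : Cocompact Γ) :
    ∃ γ ∈ Γ, ∃ (V : Lie K) (τ : ∀ j, K j), (∀ j, RCLike.re (τ j) ≠ 0) ∧
      (∀ j, qf (V j) = τ j ^ 2) ∧ expG V = γ := by
  obtain ⟨L, hL, hcov⟩ := hco
  choose γ hγ l hl hgl using fun n : ℕ => hcov (aEl (K := K) (n:ℝ))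
  obtain ⟨l₀, hl₀, hcl⟩ := hL.exists_mapClusterPt (f := (atTop : Filter ℕ)) (u := l)
    (by rw [le_principal_iff, mem_map]; exact Eventually.of_forall hl)
  -- a neighbourhood of the identity
  have hN : ∀ᶠ p : Grp K × Grp K in 𝓝 (l₀, l₀), ∀ j,
      9/10 < RCLike.re (((p.1⁻¹ * p.2 : Grp K) j : Matrix (Fin 2) (Fin 2) (K j)) 0 0) ∧
      9/10 < RCLike.re (((p.1⁻¹ * p.2 : Grp K) j : Matrix (Fin 2) (Fin 2) (K j)) 1 1) := by
    rw [eventually_all]
    intro j
    have hc : ∀ a : Fin 2, Continuous (fun p : Grp K × Grp K =>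
        RCLike.re (((p.1⁻¹ * p.2 : Grp K) j : Matrix (Fin 2) (Fin 2) (K j)) a a)) := by
      intro a
      have h1 : Continuous (fun p : Grp K × Grp K => p.1⁻¹ * p.2) :=
        (continuous_fst.inv).mul continuous_snd
      exact RCLike.continuous_re.comp ((continuous_entry j a a).comp h1)
    refine Filter.Eventually.and ?_ ?_
    · refine (hc 0).continuousAt.eventually_const_lt ?_
      simp only [inv_mul_cancel]
      show (9/10 : ℝ) < RCLike.re ((1 : Matrix (Fin 2) (Fin 2) (K j)) 0 0)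
      simp
      norm_num
    · refine (hc 1).continuousAt.eventually_const_lt ?_
      simp only [inv_mul_cancel]
      show (9/10 : ℝ) < RCLike.re ((1 : Matrix (Fin 2) (Fin 2) (K j)) 1 1)
      simp
      norm_num
  rw [nhds_prod_eq] at hN
  obtain ⟨U, hU, hUN⟩ := (Filter.eventually_prod_self_iff (r := fun a b : Grp K => ∀ j,
      9/10 < RCLike.re (((a⁻¹ * b : Grp K) j : Matrix (Fin 2) (Fin 2) (K j)) 0 0) ∧
      9/10 < RCLike.re (((a⁻¹ * b : Grp K) j : Matrix (Fin 2) (Fin 2) (K j)) 1 1))).1 hN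
  have hfr := hcl.frequently hU
  rw [frequently_atTop] at hfr
  obtain ⟨n, -, hn⟩ := hfr 0
  obtain ⟨m, hm, hmU⟩ := hfr (n + 1)
  have hh := hUN (l m) hmU (l n) hn
  set h : Grp K := (l m)⁻¹ * l n with hhd
  have e1 : γ m * (γ n)⁻¹ = aEl (m:ℝ) * h * (aEl (n:ℝ))⁻¹ := by
    rw [hgl m, hgl n, hhd]
    group
  refine ⟨γ m * (γ n)⁻¹, Γ.mul_mem (hγ m) (Γ.inv_mem (hγ n)), ?_⟩
  have hmn : (1:ℝ) ≤ (m:ℝ) - n := by
    have : (n:ℝ) + 1 ≤ m := by exact_mod_cast hm
    linarith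
  have htr : ∀ j, 2 < RCLike.re
      (((γ m * (γ n)⁻¹ : Grp K) j : Matrix (Fin 2) (Fin 2) (K j)).trace) := by
    intro j
    rw [e1, trace_aEl, map_add, RCLike.re_ofReal_mul, RCLike.re_ofReal_mul]
    obtain ⟨h1, h2⟩ := hh j
    have h3 : 2.7182818283 < Real.exp ((m:ℝ) - n) :=
      lt_of_lt_of_le Real.exp_one_gt_d9 (Real.exp_le_exp.2 hmn)
    have h4 : 0 < Real.exp (-((m:ℝ) - n)) := Real.exp_pos _
    have h5 : 0 < Real.exp (-((m:ℝ) - n)) *
        RCLike.re ((h j : Matrix (Fin 2) (Fin 2) (K j)) 1 1) := mul_pos h4 (by linarith)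
    have h6 : 2.7 * (9/10) < Real.exp ((m:ℝ) - n) *
        RCLike.re ((h j : Matrix (Fin 2) (Fin 2) (K j)) 0 0) := by
      have h7 : (0:ℝ) < RCLike.re ((h j : Matrix (Fin 2) (Fin 2) (K j)) 0 0) := by linarith
      nlinarith
    linarith
  choose V τ h1 h2 h3 using fun j => exists_log (htr j)
  exact ⟨V, τ, h1, h2, funext h3⟩

section stab

variable {E : Type*} [NormedAddCommGroup E] [NormedSpace ℝ E] [FiniteDimensional ℝ E]
  {M : Type*} [TopologicalSpace M] [ChartedSpace E M] [IsManifold 𝓘(ℝ, E) ∞ M]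
  {P : Type*} [TopologicalSpace P] [ChartedSpace E P] [IsManifold 𝓘(ℝ, E) ∞ P]
  [MulAction (Grp K) P] {Γ : Subgroup (Grp K)}

open Pool.Agent.H826R2.Wein in
/-- Stabilisers are contained in compact sets. -/
theorem stab_bounded {q : P → M} (hq : RegCover (E := E) q Γ) (hco : Cocompact Γ)
    (hcont : Continuous (fun p : Grp K × P => p.1 • p.2))
    (hfin : ∀ x : P, {γ : Γ | γ • x = x}.Finite) (x : P) :
    ∃ C : Set (Grp K), IsCompact C ∧ ∀ g : Grp K, g • x = x → g ∈ C := by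
  classical
  obtain ⟨L, hL, hcov⟩ := hco
  set Lx : Set P := (fun g : Grp K => g • x) '' L with hLx
  have hLxc : IsCompact Lx := hL.image (hcont.comp (continuous_id.prodMk continuous_const))
  have hF := hq.finite_fibre x hLxc
  have hS : {γ : Γ | γ • x ∈ Lx}.Finite := by
    have h1 : {γ : Γ | γ • x ∈ Lx} ⊆ ⋃ y ∈ {y ∈ Lx | ∃ γ : Γ, γ • x = y},
        {γ : Γ | γ • x = y} := by
      intro γ hγ
      simp only [mem_iUnion]
      exact ⟨γ • x, ⟨hγ, γ, rfl⟩, rfl⟩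
    refine (hF.biUnion ?_).subset h1
    rintro y ⟨-, γ₀, hγ₀⟩
    refine ((hfin x).image (fun σ => γ₀ * σ)).subset ?_
    intro γ hγ
    refine ⟨γ₀⁻¹ * γ, ?_, by simp⟩
    show (γ₀⁻¹ * γ) • x = x
    rw [mul_smul, (hγ : γ • x = y), ← hγ₀, inv_smul_smul]
  refine ⟨⋃ σ ∈ {γ : Γ | γ • x ∈ Lx}, (fun g : Grp K => (σ : Grp K)⁻¹ * g) '' L,
    hS.isCompact_biUnion fun σ _ => hL.image (continuous_const.mul continuous_id), ?_⟩
  intro g hg
  obtain ⟨γ, hγ, l, hl, rfl⟩ := hcov g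
  simp only [mem_iUnion]
  refine ⟨⟨γ⁻¹, Γ.inv_mem hγ⟩, ?_, ⟨l, hl, by simp⟩⟩
  show γ⁻¹ • x ∈ Lx
  refine ⟨l, hl, ?_⟩
  show l • x = γ⁻¹ • x
  rw [← inv_smul_smul γ (l • x), ← mul_smul γ l x, hg]

end stab

/-- entries are bounded on compact sets -/
lemma entry_bounded {C : Set (Grp K)} (hC : IsCompact C) (j : ι) (a b : Fin 2) :
    ∃ B : ℝ, ∀ g ∈ C, ‖(g j : Matrix (Fin 2) (Fin 2) (K j)) a b‖ ≤ B :=
  hC.exists_bound_of_continuousOn (continuous_entry j a b).continuousOn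

/-- a bounded one-parameter group has no nilpotent component -/
lemma nilp_bounded {C : Set (Grp K)} (hC : IsCompact C) {κ : Lie K}
    (h : ∀ t : ℝ, expG (t • κ) ∈ C) {j : ι} (hj : qf (κ j) = 0) : κ j = 0 := by
  have hsq : sl (κ j) * sl (κ j) = 0 := by rw [sl_mul_self, hj, zero_smul]
  have hexp : ∀ t : ℝ, ((expG (t • κ) j : Matrix.SpecialLinearGroup (Fin 2) (K j)) :
      Matrix (Fin 2) (Fin 2) (K j)) = 1 + t • sl (κ j) := by
    intro t
    show NormedSpace.exp (sl (t • κ j)) = _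
    rw [sl_smul, exp_of_sq_zero hsq]
  have key : ∀ a b : Fin 2, sl (κ j) a b = 0 := by
    intro a b
    obtain ⟨B, hB⟩ := entry_bounded hC j a b
    by_contra hne
    have hpos : 0 < ‖sl (κ j) a b‖ := norm_pos_iff.2 hne
    set t : ℝ := (B + ‖(1 : Matrix (Fin 2) (Fin 2) (K j)) a b‖ + 1) / ‖sl (κ j) a b‖ with ht
    have hB0 : 0 ≤ B := le_trans (norm_nonneg _) (hB _ (h 0))
    have h1 := hB _ (h t)
    rw [hexp, Matrix.add_apply, Matrix.smul_apply] at h1
    have h2 : ‖t • sl (κ j) a b‖ ≤ ‖(1 : Matrix (Fin 2) (Fin 2) (K j)) a b +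
        t • sl (κ j) a b‖ + ‖(1 : Matrix (Fin 2) (Fin 2) (K j)) a b‖ := by
      have := norm_sub_le ((1 : Matrix (Fin 2) (Fin 2) (K j)) a b +
        t • sl (κ j) a b) ((1 : Matrix (Fin 2) (Fin 2) (K j)) a b)
      rwa [add_sub_cancel_left] at this
    have ht0 : 0 ≤ t := by
      rw [ht]
      positivity
    rw [norm_smul, Real.norm_eq_abs, abs_of_nonneg ht0, ht, div_mul_cancel₀ _ hpos.ne'] at h2
    linarith
  apply sl_inj
  rw [show sl (0 : Fin 3 → K j) = 0 by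
    ext a b
    fin_cases a <;> fin_cases b <;> simp [sl]]
  ext a b
  exact key a b

/-- a bounded one-parameter group has no component equal to `diag(1,-1)` -/
lemma hyp_unbounded {C : Set (Grp K)} (hC : IsCompact C) {κ : Lie K}
    (h : ∀ t : ℝ, expG (t • κ) ∈ C) {j : ι} (hj : κ j = dg 1) : False := by
  have hsq : sl (κ j) * sl (κ j) = ((1 : K j) ^ 2) • (1 : Matrix (Fin 2) (Fin 2) (K j)) := by
    rw [sl_mul_self, hj]
    simp [qf, dg]
  obtain ⟨B, hB⟩ := entry_bounded hC j 0 0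
  have hB0 : 0 ≤ B := le_trans (norm_nonneg _) (hB _ (h 0))
  have h1 := hB _ (h (B + 1))
  have h2 : ((expG ((B + 1) • κ) j : Matrix.SpecialLinearGroup (Fin 2) (K j)) :
      Matrix (Fin 2) (Fin 2) (K j)) 0 0 = NormedSpace.exp ((B + 1) • (1 : K j)) := by
    show NormedSpace.exp (sl ((B + 1) • κ j)) 0 0 = _
    rw [sl_smul, exp_of_sq one_ne_zero hsq, hj]
    simp [sl, dg]
  rw [h2] at h1
  have h3 : NormedSpace.exp ((B + 1) • (1 : K j)) = ((Real.exp (B + 1) : ℝ) : K j) := by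
    rw [← Algebra.algebraMap_eq_smul_one, Real.exp_eq_exp_ℝ]
    exact (NormedSpace.algebraMap_exp_comm (𝕂 := ℝ) (𝔸 := K j) (B + 1)).symm
  rw [h3, RCLike.norm_ofReal, abs_of_pos (Real.exp_pos _)] at h1
  have h4 := Real.add_one_le_exp (B + 1)
  linarith

end Run7.h986.NS
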