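import Mathlib
import Pool.Agent.Run7.h986.NS.M3

/-! The trace pairing on traceless `2 × 2` matrices. -/

open scoped Matrix
open Set

noncomputable section

namespace Run7.h986.NS

variable {K : Type*} [RCLike K]

/-- the trace form `tr (sl v * sl w)` -/
def pr (v w : Fin 3 → K) : K := 2 * (v 0 * w 0) + v 1 * w 2 + v 2 * w 1

lemma pr_eq_trace (v w : Fin 3 → K) : pr v w = (sl v * sl w).trace := by
  rw [Matrix.trace_fin_two]
  simp [pr, sl, Matrix.mul_apply, Fin.sum_univ_two]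
  ring

lemma pr_self (v : Fin 3 → K) : pr v v = 2 * qf v := by unfold pr qf; ring

lemma pr_comm (v w : Fin 3 → K) : pr v w = pr w v := by unfold pr; ring

lemma pr_smul_left (c : K) (v w : Fin 3 → K) : pr (c • v) w = c * pr v w := by
  simp [pr]; ring

lemma pr_add_right (v w w' : Fin 3 → K) : pr v (w + w') = pr v w + pr v w' := by
  simp [pr]; ring

lemma qf_smul (c : K) (v : Fin 3 → K) : qf (c • v) = c ^ 2 * qf v := by
  simp [qf]; ring

lemma qf_add (v w : Fin 3 → K) : qf (v + w) = qf v + qf w + pr v w := by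
  simp [qf, pr]; ring

lemma pr_Ad (g : Matrix.SpecialLinearGroup (Fin 2) K) (v w : Fin 3 → K) :
    pr (Ad g v) (Ad g w) = pr v w := by
  rw [pr_eq_trace, pr_eq_trace, sl_Ad, sl_Ad]
  have : (g : Matrix (Fin 2) (Fin 2) K) * sl v *
      (g⁻¹ : Matrix.SpecialLinearGroup (Fin 2) K) *
      ((g : Matrix (Fin 2) (Fin 2) K) * sl w *
      (g⁻¹ : Matrix.SpecialLinearGroup (Fin 2) K)) =
      (g : Matrix (Fin 2) (Fin 2) K) * (sl v * sl w) *
      (g⁻¹ : Matrix.SpecialLinearGroup (Fin 2) K) := by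
    have h := coe_inv_mul g
    calc _ = (g : Matrix (Fin 2) (Fin 2) K) * sl v *
      (((g⁻¹ : Matrix.SpecialLinearGroup (Fin 2) K) : Matrix (Fin 2) (Fin 2) K) *
      (g : Matrix (Fin 2) (Fin 2) K)) * sl w *
      (g⁻¹ : Matrix.SpecialLinearGroup (Fin 2) K) := by noncomm_ring
      _ = _ := by rw [h]; noncomm_ring
  rw [this, Matrix.trace_mul_comm, ← mul_assoc, coe_inv_mul, one_mul]

lemma Ad_inv_Ad (g : Matrix.SpecialLinearGroup (Fin 2) K) (v : Fin 3 → K) :
    Ad g⁻¹ (Ad g v) = v := by rw [← Ad_mul, inv_mul_cancel, Ad_one]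

lemma Ad_Ad_inv (g : Matrix.SpecialLinearGroup (Fin 2) K) (v : Fin 3 → K) :
    Ad g (Ad g⁻¹ v) = v := by rw [← Ad_mul, mul_inv_cancel, Ad_one]

lemma qf_Ad (g : Matrix.SpecialLinearGroup (Fin 2) K) (v : Fin 3 → K) :
    qf (Ad g v) = qf v := by
  have h := pr_Ad g v v
  rw [pr_self, pr_self] at h
  exact mul_left_cancel₀ two_ne_zero h

lemma Ad_zero (g : Matrix.SpecialLinearGroup (Fin 2) K) : Ad g (0 : Fin 3 → K) = 0 := by
  apply sl_inj
  rw [sl_Ad]
  have : sl (0 : Fin 3 → K) = 0 := by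
    ext i j
    fin_cases i <;> fin_cases j <;> simp [sl]
  rw [this, mul_zero, zero_mul]

/-- the pairing is nondegenerate over the reals -/
lemma pr_nondeg {w w' : Fin 3 → K} (h : ∀ v, RCLike.re (pr v w) = RCLike.re (pr v w')) :
    w = w' := by
  have key : ∀ a b : K, (∀ z : K, RCLike.re (z * a) = RCLike.re (z * b)) → a = b := by
    intro a b hab
    have h1 := hab ((starRingEnd K) (a - b))
    have h2 : RCLike.re ((starRingEnd K) (a - b) * (a - b)) = 0 := by
      rw [mul_sub, map_sub, h1, sub_self]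
    rw [RCLike.conj_mul] at h2
    have h3 : ‖a - b‖ ^ 2 = 0 := by
      have h4 : RCLike.re ((‖a - b‖ : K) ^ 2) = ‖a - b‖ ^ 2 := by
        rw [← RCLike.ofReal_pow, RCLike.ofReal_re]
      rw [← h4]; exact h2
    have h5 : ‖a - b‖ = 0 := by simpa using h3
    exact sub_eq_zero.1 (norm_eq_zero.1 h5)
  have h0 : w 0 = w' 0 := by
    apply key
    intro z
    have := h ![z / 2, 0, 0]
    simp only [pr, Matrix.cons_val_zero, Matrix.cons_val_one, Matrix.cons_val, zero_mul,
      add_zero] at this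
    rw [show 2 * (z / 2 * w 0) = z * w 0 by ring, show 2 * (z / 2 * w' 0) = z * w' 0 by ring]
      at this
    exact this
  have h1 : w 1 = w' 1 := by
    apply key
    intro z
    have := h ![0, 0, z]
    simpa [pr] using this
  have h2 : w 2 = w' 2 := by
    apply key
    intro z
    have := h ![0, z, 0]
    simpa [pr] using this
  ext i
  fin_cases i
  · exact h0
  · exact h1
  · exact h2

/-- the number representing a real linear form on `K` -/
def cf (ℓ : K → ℝ) : K := (ℓ 1 : K) - RCLike.I * (ℓ RCLike.I : K)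

lemma re_mul_cf {ℓ : K →ₗ[ℝ] ℝ} (z : K) : ℓ z = RCLike.re (z * cf ℓ) := by
  have h1 : z = (RCLike.re z) • (1 : K) + (RCLike.im z) • (RCLike.I : K) := by
    rw [RCLike.real_smul_eq_coe_mul, RCLike.real_smul_eq_coe_mul, mul_one]
    exact (RCLike.re_add_im z).symm
  have h2 : ℓ z = RCLike.re z * ℓ 1 + RCLike.im z * ℓ RCLike.I := by
    conv_lhs => rw [h1]
    rw [map_add, map_smul, map_smul]
    simp
  have h3 : RCLike.re (z * cf ℓ) = RCLike.re z * ℓ 1 -
      RCLike.re (z * RCLike.I) * ℓ RCLike.I := by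
    unfold cf
    rw [mul_sub, map_sub, RCLike.re_mul_ofReal, ← mul_assoc, RCLike.re_mul_ofReal]
  have h4 : RCLike.re (z * (RCLike.I : K)) = -(RCLike.im z) := by
    rw [RCLike.mul_re, RCLike.I_re, mul_zero, zero_sub]
    congr 1
    have := RCLike.mul_im_I_ax z
    simpa using this
  rw [h2, h3, h4]
  ring

/-- the vector representing a real linear form on `Fin 3 → K` -/
def rep (ℓ : (Fin 3 → K) → ℝ) : Fin 3 → K :=
  ![cf (fun z => ℓ (Pi.single 0 z)) / 2, cf (fun z => ℓ (Pi.single 2 z)),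
    cf (fun z => ℓ (Pi.single 1 z))]

lemma rep_spec (ℓ : (Fin 3 → K) →ₗ[ℝ] ℝ) (v : Fin 3 → K) :
    ℓ v = RCLike.re (pr v (rep ℓ)) := by
  have h1 : v = Pi.single 0 (v 0) + Pi.single 1 (v 1) + Pi.single 2 (v 2) := by
    ext i
    fin_cases i <;> simp
  have h2 : ∀ (i : Fin 3) (z : K), ℓ (Pi.single i z) =
      RCLike.re (z * cf (fun z => ℓ (Pi.single i z))) := by
    intro i z
    let ℓi : K →ₗ[ℝ] ℝ := ℓ.comp (LinearMap.single ℝ (fun _ : Fin 3 => K) i)
    exact re_mul_cf (ℓ := ℓi) z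
  conv_lhs => rw [h1]
  rw [map_add, map_add, h2, h2, h2, ← map_add, ← map_add]
  congr 1
  simp only [pr, rep, Matrix.cons_val_zero, Matrix.cons_val_one, Matrix.cons_val]
  ring

end Run7.h986.NS
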