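import Mathlib
import Pool.Agent.Run7.h986.NS.SF
import Pool.Agent.Run7.h986.NS.Pair
import Pool.Agent.Run7.h986.NS.Coc

/-! The moment map of an action of a product of groups `SL₂(K j)` and its Casimir functions. -/

open scoped Topology ContDiff Manifold
open Set Metric Bundle Pool.Agent.Helper186

noncomputable section

namespace Run7.h986.NS

open Pool.Agent.H826R2.Wein

set_option linter.unusedSectionVars false

variable {E : Type*} [NormedAddCommGroup E] [NormedSpace ℝ E] [FiniteDimensional ℝ E]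
  {P : Type*} [TopologicalSpace P] [ChartedSpace E P] [IsManifold 𝓘(ℝ, E) ∞ P]

/-- curves with a given velocity -/
lemma exists_curve (x : P) (u : E) :
    ∃ c : ℝ → P, c 0 = x ∧ HasMFDerivAt 𝓘(ℝ, ℝ) 𝓘(ℝ, E) c 0
      ((1 : ℝ →L[ℝ] ℝ).smulRight u) := by
  set ψ := extChartAt 𝓘(ℝ, E) x with hψ
  refine ⟨fun s : ℝ => ψ.symm (ψ x + s • (u : E)), ?_, ?_⟩
  · simp [hψ]
  · have h1 : HasMFDerivAt 𝓘(ℝ, ℝ) 𝓘(ℝ, E) (fun s : ℝ => ψ x + s • (u : E)) 0
        ((1 : ℝ →L[ℝ] ℝ).smulRight (u : E)) := by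
      have : HasFDerivAt (fun s : ℝ => ψ x + s • (u : E))
          ((1 : ℝ →L[ℝ] ℝ).smulRight (u : E)) (0:ℝ) :=
        (((1 : ℝ →L[ℝ] ℝ).smulRight (u : E)).hasFDerivAt).const_add _
      exact this.hasMFDerivAt
    have h2 : MDifferentiableAt 𝓘(ℝ, E) 𝓘(ℝ, E) ψ.symm (ψ x + (0:ℝ) • (u : E)) := by
      rw [zero_smul, add_zero]
      have h3 : ContMDiffOn 𝓘(ℝ, E) 𝓘(ℝ, E) ∞ ψ.symm ψ.target := contMDiffOn_extChartAt_symm x
      exact (h3.contMDiffAt ((isOpen_extChartAt_target x).mem_nhds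
        (mem_extChartAt_target x))).mdifferentiableAt (by simp)
    have h4 := h2.hasMFDerivAt.comp (0:ℝ) h1
    refine h4.congr_mfderiv ?_
    refine ContinuousLinearMap.ext fun (r : ℝ) => ?_
    have h5 : ∀ y : E, y = ψ x → (mfderiv 𝓘(ℝ, E) 𝓘(ℝ, E) ψ.symm y (r • (u : E)) : E) =
        r • (u : E) := by
      rintro _ rfl
      exact mfderiv_extChartAt_symm_self (J := 𝓘(ℝ, E)) x (r • (u : E))
    exact h5 _ (by simp)

/-- derivative of a function along a curve -/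
lemma hasDerivAt_curve {c : ℝ → P} {x : P} (hc0 : c 0 = x) {u : TangentSpace 𝓘(ℝ, E) x}
    (hc : HasMFDerivAt 𝓘(ℝ, ℝ) 𝓘(ℝ, E) c 0 ((1 : ℝ →L[ℝ] ℝ).smulRight (u : E)))
    {f : P → ℝ} (hf : ContMDiff 𝓘(ℝ, E) 𝓘(ℝ, ℝ) ∞ f) :
    HasDerivAt (fun s => f (c s)) (dForm 𝓘(ℝ, E) f x u) 0 := by
  subst hc0
  exact hasDerivAt_along (W := fun y => (u : E)) (t := 0) hc hf

namespace SF

variable {ι : Type*} [Fintype ι] [DecidableEq ι] {K : ι → Type*} [∀ j, RCLike (K j)]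
  {β : (x : P) → TangentSpace 𝓘(ℝ, E) x →L[ℝ] ℝ} (A : SF β (Lie K))

/-- the `j`-th component of the moment map at `x`, a linear form -/
def Lj (j : ι) (x : P) : (Fin 3 → K j) →ₗ[ℝ] ℝ :=
  (A.HL x).comp (LinearMap.single ℝ (fun j => Fin 3 → K j) j)

/-- the `j`-th component of the moment map at `x`, an element of the Lie algebra -/
def Z (j : ι) (x : P) : Fin 3 → K j := rep (A.Lj j x)

lemma H_single (j : ι) (v : Fin 3 → K j) (x : P) :
    A.H (Pi.single j v) x = RCLike.re (pr v (A.Z j x)) := rep_spec (A.Lj j x) v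

lemma sum_single (κ : Lie K) : κ = ∑ j, (Pi.single j (κ j) : Lie K) :=
  (Finset.univ_sum_single κ).symm

lemma H_eq (κ : Lie K) (x : P) :
    A.H κ x = ∑ j, RCLike.re (pr (κ j) (A.Z j x)) := by
  have h1 : A.H κ x = A.HL x (∑ j, (Pi.single j (κ j) : Lie K)) := by
    rw [← sum_single, HL_apply]
  rw [h1, map_sum]
  exact Finset.sum_congr rfl fun j _ => A.H_single j (κ j) x

/-- the derivative of the moment map, as a linear form -/
def dHL (hβ : SmoothForm β) (x : P) (u : TangentSpace 𝓘(ℝ, E) x) : Lie K →ₗ[ℝ] ℝ where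
  toFun κ := dForm 𝓘(ℝ, E) (A.H κ) x u
  map_add' κ κ' := by
    rw [A.dH hβ, A.dH hβ, A.dH hβ, A.X_add, ← extDerL_apply, ← extDerL_apply, ← extDerL_apply,
      map_add]
    show -(extDerL 𝓘(ℝ, E) β x (A.X κ x) u + extDerL 𝓘(ℝ, E) β x (A.X κ' x) u) = _
    ring
  map_smul' c κ := by
    rw [A.dH hβ, A.dH hβ, A.X_smul, ← extDerL_apply, ← extDerL_apply, map_smul]
    show -(c * extDerL 𝓘(ℝ, E) β x (A.X κ x) u) = c * -(extDerL 𝓘(ℝ, E) β x (A.X κ x) u)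
    ring

/-- the derivative of `Z j` -/
def Z' (hβ : SmoothForm β) (j : ι) (x : P) (u : TangentSpace 𝓘(ℝ, E) x) : Fin 3 → K j :=
  rep ((A.dHL hβ x u).comp (LinearMap.single ℝ (fun j => Fin 3 → K j) j))

lemma dH_single (hβ : SmoothForm β) (j : ι) (v : Fin 3 → K j) (x : P)
    (u : TangentSpace 𝓘(ℝ, E) x) :
    dForm 𝓘(ℝ, E) (A.H (Pi.single j v)) x u = RCLike.re (pr v (A.Z' hβ j x u)) :=
  rep_spec ((A.dHL hβ x u).comp (LinearMap.single ℝ (fun j => Fin 3 → K j) j)) v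

lemma dH_eq (hβ : SmoothForm β) (κ : Lie K) (x : P) (u : TangentSpace 𝓘(ℝ, E) x) :
    dForm 𝓘(ℝ, E) (A.H κ) x u = ∑ j, RCLike.re (pr (κ j) (A.Z' hβ j x u)) := by
  have h1 : dForm 𝓘(ℝ, E) (A.H κ) x u = A.dHL hβ x u (∑ j, (Pi.single j (κ j) : Lie K)) := by
    rw [← sum_single]; rfl
  rw [h1, map_sum]
  exact Finset.sum_congr rfl fun j _ => A.dH_single hβ j (κ j) x u

lemma Z'_add (hβ : SmoothForm β) (j : ι) (x : P) (u u' : TangentSpace 𝓘(ℝ, E) x) :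
    A.Z' hβ j x (u + u') = A.Z' hβ j x u + A.Z' hβ j x u' := by
  apply pr_nondeg
  intro v
  rw [pr_add_right, map_add, ← A.dH_single, ← A.dH_single, ← A.dH_single, map_add]

lemma hasDerivAt_cf {L : Type*} [RCLike L] {ℓ : ℝ → L → ℝ} {ℓ' : L → ℝ}
    (h1 : HasDerivAt (fun s => ℓ s 1) (ℓ' 1) 0)
    (h2 : HasDerivAt (fun s => ℓ s RCLike.I) (ℓ' RCLike.I) 0) :
    HasDerivAt (fun s => cf (ℓ s)) (cf ℓ') 0 := by
  unfold cf
  have e1 := (RCLike.ofRealCLM (K := L)).hasFDerivAt.comp_hasDerivAt (0:ℝ) h1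
  have e2 := (RCLike.ofRealCLM (K := L)).hasFDerivAt.comp_hasDerivAt (0:ℝ) h2
  exact e1.sub (e2.const_mul RCLike.I)

/-- the moment map along a curve -/
lemma hasDerivAt_Z (hβ : SmoothForm β) (j : ι) {c : ℝ → P} {x : P} (hc0 : c 0 = x)
    {u : TangentSpace 𝓘(ℝ, E) x}
    (hc : HasMFDerivAt 𝓘(ℝ, ℝ) 𝓘(ℝ, E) c 0 ((1 : ℝ →L[ℝ] ℝ).smulRight (u : E))) (i : Fin 3) :
    HasDerivAt (fun s => A.Z j (c s) i) (A.Z' hβ j x u i) 0 := by
  have key : ∀ κ : Lie K, HasDerivAt (fun s => A.H κ (c s)) (dForm 𝓘(ℝ, E) (A.H κ) x u) 0 :=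
    fun κ => hasDerivAt_curve hc0 hc (A.smooth_H hβ κ)
  have hcf : ∀ k : Fin 3, HasDerivAt (fun s => cf (fun z : K j => A.Lj j (c s) (Pi.single k z)))
      (cf (fun z : K j => ((A.dHL hβ x u).comp
        (LinearMap.single ℝ (fun j => Fin 3 → K j) j)) (Pi.single k z))) 0 :=
    fun k => hasDerivAt_cf (key _) (key _)
  fin_cases i
  · exact (hcf 0).div_const 2
  · exact hcf 2
  · exact hcf 1

/-- the Casimir function -/
def D (j : ι) (x : P) : K j := qf (A.Z j x)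

lemma hasDerivAt_D (hβ : SmoothForm β) (j : ι) {c : ℝ → P} {x : P} (hc0 : c 0 = x)
    {u : TangentSpace 𝓘(ℝ, E) x}
    (hc : HasMFDerivAt 𝓘(ℝ, ℝ) 𝓘(ℝ, E) c 0 ((1 : ℝ →L[ℝ] ℝ).smulRight (u : E))) :
    HasDerivAt (fun s => A.D j (c s)) (pr (A.Z j x) (A.Z' hβ j x u)) 0 := by
  have h0 := A.hasDerivAt_Z hβ j hc0 hc 0
  have h1 := A.hasDerivAt_Z hβ j hc0 hc 1
  have h2 := A.hasDerivAt_Z hβ j hc0 hc 2
  have h3 := (h0.pow 2).add (h1.mul h2)
  refine h3.congr_deriv ?_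
  rw [hc0]
  simp only [pr, Nat.cast_ofNat, Nat.add_one_sub_one, pow_one]
  ring

lemma continuous_Z (hβ : SmoothForm β) (j : ι) (i : Fin 3) :
    Continuous (fun x => A.Z j x i) := by
  have key : ∀ κ : Lie K, Continuous (A.H κ) := fun κ => (A.smooth_H hβ κ).continuous
  have hcf : ∀ k : Fin 3, Continuous (fun x => cf (fun z : K j => A.Lj j x (Pi.single k z))) := by
    intro k
    unfold cf
    exact (RCLike.continuous_ofReal.comp (key _)).sub
      (continuous_const.mul (RCLike.continuous_ofReal.comp (key _)))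
  fin_cases i
  · exact (hcf 0).div_const 2
  · exact hcf 2
  · exact hcf 1

lemma continuous_D (hβ : SmoothForm β) (j : ι) : Continuous (A.D j) := by
  have h0 := A.continuous_Z hβ j 0
  have h1 := A.continuous_Z hβ j 1
  have h2 := A.continuous_Z hβ j 2
  exact (h0.pow 2).add (h1.mul h2)

end SF

end Run7.h986.NS
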