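import Mathlib
import Pool.Agent.Run7.h986.NS.Geo

/-! Equivariance of the moment map, and the setting of the proof. -/

open scoped Topology ContDiff Manifold
open Set Metric Bundle Pool.Agent.Helper186

noncomputable section

namespace Run7.h986.NS

open Pool.Agent.H826R2.Wein

set_option linter.unusedSectionVars false

variable {E : Type*} [NormedAddCommGroup E] [NormedSpace ℝ E] [FiniteDimensional ℝ E]
  {P : Type*} [TopologicalSpace P] [ChartedSpace E P] [IsManifold 𝓘(ℝ, E) ∞ P]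
  {ι : Type*} [Fintype ι] [DecidableEq ι] {K : ι → Type*} [∀ j, RCLike (K j)]

lemma expG_zero : expG (0 : Lie K) = 1 := funext fun _ => expSL_zero

lemma expG_add (v : Lie K) (s t : ℝ) : expG ((s + t) • v) = expG (s • v) * expG (t • v) :=
  funext fun j => expSL_add (v j) s t

/-- the adjoint representation of the product -/
def AdG (g : Grp K) (v : Lie K) : Lie K := fun j => Ad (g j) (v j)

lemma AdG_smul (g : Grp K) (t : ℝ) (v : Lie K) : AdG g (t • v) = t • AdG g v :=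
  funext fun j => Ad_smul (g j) t (v j)

lemma conj_expG (g : Grp K) (v : Lie K) : g * expG v = expG (AdG g v) * g :=
  funext fun j => conj_expSL (g j) (v j)

lemma AdG_single (g : Grp K) (j : ι) (v : Fin 3 → K j) :
    AdG g (Pi.single j v) = Pi.single j (Ad (g j) v) := by
  funext i
  by_cases h : i = j
  · subst h
    simp [AdG]
  · simp [AdG, Pi.single_eq_of_ne h, Ad_zero]

lemma AdG_mul (g h : Grp K) (v : Lie K) : AdG (g * h) v = AdG g (AdG h v) :=
  funext fun j => Ad_mul (g j) (h j) (v j)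

lemma AdG_one (v : Lie K) : AdG 1 v = v := funext fun j => Ad_one (v j)

/-- The setting: a strict action of the group on a manifold with a contact form. -/
structure Setup [MulAction (Grp K) P] (β : (x : P) → TangentSpace 𝓘(ℝ, E) x →L[ℝ] ℝ)
    (R : (x : P) → TangentSpace 𝓘(ℝ, E) x) (Γ : Subgroup (Grp K)) where
  contact : IsContact β
  reeb : IsReeb β R
  A : SF β (Lie K)
  act : ∀ v x, A.act v x = expG v • x
  smooth : ∀ g : Grp K, ContMDiff 𝓘(ℝ, E) 𝓘(ℝ, E) ∞ (fun x : P => g • x)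
  strict : ∀ (g : Grp K) (x : P) (u : TangentSpace 𝓘(ℝ, E) x),
    β (g • x) (mfderiv 𝓘(ℝ, E) 𝓘(ℝ, E) (fun x : P => g • x) x u) = β x u
  stab : ∀ x : P, ∃ C : Set (Grp K), IsCompact C ∧ ∀ g : Grp K, g • x = x → g ∈ C
  dom : ∃ S : Set P, IsCompact S ∧ ∀ x : P, ∃ γ : Grp K, γ • x ∈ S

namespace Setup

variable [MulAction (Grp K) P] {β : (x : P) → TangentSpace 𝓘(ℝ, E) x →L[ℝ] ℝ}
  {R : (x : P) → TangentSpace 𝓘(ℝ, E) x} {Γ : Subgroup (Grp K)} (S : Setup β R Γ)

lemma fam_eq (κ : Lie K) (t : ℝ) (x : P) : S.A.fam κ (t, x) = expG (t • κ) • x :=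
  S.act (t • κ) x

lemma smul_fam (g : Grp K) (κ : Lie K) (t : ℝ) (x : P) :
    g • S.A.fam κ (t, x) = S.A.fam (AdG g κ) (t, g • x) := by
  rw [S.fam_eq, S.fam_eq, smul_smul, smul_smul, conj_expG, AdG_smul]

lemma H_smul (g : Grp K) (κ : Lie K) (x : P) :
    S.A.H (AdG g κ) (g • x) = S.A.H κ x :=
  S.A.H_push (S.smooth g) (S.smul_fam g κ) (S.strict g) x

lemma Z_smul (g : Grp K) (j : ι) (x : P) : S.A.Z j (g • x) = Ad (g j) (S.A.Z j x) := by
  apply pr_nondeg
  intro v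
  have h1 := S.H_smul g (Pi.single j (Ad (g j)⁻¹ v)) x
  rw [AdG_single, S.A.H_single, S.A.H_single, Ad_Ad_inv] at h1
  rw [h1, ← pr_Ad (g j), Ad_Ad_inv]

lemma D_smul (g : Grp K) (j : ι) (x : P) : S.A.D j (g • x) = S.A.D j x := by
  unfold SF.D
  rw [S.Z_smul, qf_Ad]

lemma crit_smul (g : Grp K) {κ : Lie K} {x : P} (h : dForm 𝓘(ℝ, E) (S.A.H κ) x = 0) :
    dForm 𝓘(ℝ, E) (S.A.H (AdG g κ)) (g • x) = 0 := by
  refine S.A.crit_push S.contact.smooth (g := fun x => g • x) (g' := fun x => g⁻¹ • x)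
    (S.smooth g⁻¹) (fun y => inv_smul_smul g y) ?_ h
  intro y
  have h1 := S.H_smul g⁻¹ (AdG g κ) y
  rw [← AdG_mul, inv_mul_cancel, AdG_one] at h1
  exact h1

include S in
/-- a function which is continuous and invariant attains its maximum -/
lemma exists_max [Nonempty P] {F : P → ℝ} (hF : Continuous F) (hinv : ∀ (g : Grp K) x,
    F (g • x) = F x) : ∃ x₀, ∀ x, F x ≤ F x₀ := by
  obtain ⟨C, hC, hdom⟩ := S.dom
  obtain ⟨y⟩ := (inferInstance : Nonempty P)
  obtain ⟨γ, hγ⟩ := hdom y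
  obtain ⟨x₀, hx₀, hmax⟩ := hC.exists_isMaxOn ⟨_, hγ⟩ hF.continuousOn
  refine ⟨x₀, fun x => ?_⟩
  obtain ⟨γ', hγ'⟩ := hdom x
  rw [← hinv γ' x]
  exact hmax hγ'

/-- a vector field of the action which vanishes at a point -/
lemma fixed [T2Space P] {κ : Lie K} {x : P} (h : S.A.X κ x = 0) :
    ∃ C : Set (Grp K), IsCompact C ∧ ∀ t : ℝ, expG (t • κ) ∈ C := by
  obtain ⟨C, hC, hstab⟩ := S.stab x
  refine ⟨C, hC, fun t => hstab _ ?_⟩
  rw [← S.act]
  exact S.A.fixed_of_X_eq_zero h t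

/-- a critical point with value zero -/
lemma X_eq_zero {κ : Lie K} {x : P} (h : dForm 𝓘(ℝ, E) (S.A.H κ) x = 0)
    (h0 : S.A.H κ x = 0) : S.A.X κ x = 0 := by
  have := S.A.X_eq_of_crit S.contact S.reeb h
  rw [h0, zero_smul] at this
  exact this

end Setup

end Run7.h986.NS
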