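import Mathlib
import Pool.Agent.Run7.h986.NS.Equi

/-! Closed orbits from circles in the group. -/

open scoped Topology ContDiff Manifold
open Set Metric Bundle Pool.Agent.Helper186

noncomputable section

namespace Run7.h986.NS

open Pool.Agent.H826R2.Wein

set_option linter.unusedSectionVars false

variable {E : Type*} [NormedAddCommGroup E] [NormedSpace ℝ E] [FiniteDimensional ℝ E]
  {P : Type*} [TopologicalSpace P] [ChartedSpace E P] [IsManifold 𝓘(ℝ, E) ∞ P]
  {ι : Type*} [Fintype ι] [DecidableEq ι] {K : ι → Type*} [∀ j, RCLike (K j)]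

lemma hasDerivAt_re {L : Type*} [RCLike L] {f : ℝ → L} {f' : L} {s : ℝ} (h : HasDerivAt f f' s) :
    HasDerivAt (fun s => RCLike.re (f s)) (RCLike.re f') s :=
  (RCLike.reCLM (K := L)).hasFDerivAt.comp_hasDerivAt s h

lemma hasDerivAt_im {L : Type*} [RCLike L] {f : ℝ → L} {f' : L} {s : ℝ} (h : HasDerivAt f f' s) :
    HasDerivAt (fun s => RCLike.im (f s)) (RCLike.im f') s :=
  (RCLike.imCLM (K := L)).hasFDerivAt.comp_hasDerivAt s h

/-- derivative of the norm -/
lemma hasDerivAt_norm' {L : Type*} [RCLike L] {f : ℝ → L} {f' : L} {s : ℝ}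
    (h : HasDerivAt f f' s) (h0 : f s ≠ 0) :
    HasDerivAt (fun s => ‖f s‖) (RCLike.re ((starRingEnd L) (f s) / (‖f s‖ : L) * f')) s := by
  have hn : ∀ z : L, ‖z‖ = Real.sqrt (RCLike.re z ^ 2 + RCLike.im z ^ 2) := by
    intro z
    rw [sq, sq, ← RCLike.norm_sq_eq_def, Real.sqrt_sq (norm_nonneg z)]
  have hn0 : ‖f s‖ ≠ 0 := norm_ne_zero_iff.2 h0
  have h1 := ((hasDerivAt_re h).pow 2).add ((hasDerivAt_im h).pow 2)
  have h2 : RCLike.re (f s) ^ 2 + RCLike.im (f s) ^ 2 ≠ 0 := by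
    intro h3
    apply hn0
    rw [hn, h3, Real.sqrt_zero]
  have h3 := h1.sqrt h2
  have e : (fun s => ‖f s‖) = fun s => Real.sqrt (RCLike.re (f s) ^ 2 + RCLike.im (f s) ^ 2) := by
    funext s; exact hn _
  rw [e]
  refine h3.congr_deriv ?_
  have h4 : RCLike.re ((starRingEnd L) (f s) / (‖f s‖ : L) * f') =
      (RCLike.re (f s) * RCLike.re f' + RCLike.im (f s) * RCLike.im f') / ‖f s‖ := by
    rw [div_mul_eq_mul_div, RCLike.div_re_ofReal, RCLike.mul_re, RCLike.conj_re, RCLike.conj_im]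
    ring
  rw [h4, hn (f s)]
  simp only [Pi.pow_apply, Nat.cast_ofNat, Nat.add_one_sub_one, pow_one, Pi.add_apply]
  field_simp

namespace Setup

variable [MulAction (Grp K) P] {β : (x : P) → TangentSpace 𝓘(ℝ, E) x →L[ℝ] ℝ}
  {R : (x : P) → TangentSpace 𝓘(ℝ, E) x} {Γ : Subgroup (Grp K)} (S : Setup β R Γ)

/-- The conclusion: a Reeb orbit on `P` which closes up modulo `Γ`. -/
def Closed (R : (x : P) → TangentSpace 𝓘(ℝ, E) x) (Γ : Subgroup (Grp K)) : Prop :=
  ∃ (c : ℝ → P) (T : ℝ), 0 < T ∧ IsMIntegralCurve (I := 𝓘(ℝ, E)) c R ∧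
    ∃ γ ∈ Γ, ∀ t, c (t + T) = γ • c t

/-- **The closing lemma.** A critical point of the Hamiltonian of `κ` with positive value `a`, and
`exp (T κ)` in `Γ`. -/
lemma closed_of_crit {κ : Lie K} {x : P} (h : dForm 𝓘(ℝ, E) (S.A.H κ) x = 0) {a : ℝ}
    (ha : S.A.H κ x = a) (ha0 : 0 < a) {T : ℝ} (hT : 0 < T) (hγ : expG (T • κ) ∈ Γ) :
    Closed R Γ := by
  refine ⟨fun t => S.A.fam κ (t * a⁻¹, x), a * T, by positivity,
    S.A.orbit S.contact S.reeb h ha ha0.ne', _, hγ, fun t => ?_⟩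
  have e : (t + a * T) * a⁻¹ = T + t * a⁻¹ := by
    field_simp
    ring
  simp only
  rw [e, S.A.fam_add, S.fam_eq κ T]

/-- **Elliptic case.** -/
theorem closed_of_elliptic [T2Space P] [Nonempty P] {j : ι} {x : P}
    (hx : RCLike.re (S.A.D j x) < ‖S.A.D j x‖) : Closed R Γ := by
  have hβ := S.contact.smooth
  set F : P → ℝ := fun x => ‖S.A.D j x‖ - RCLike.re (S.A.D j x) with hF
  have hFc : Continuous F := (S.A.continuous_D hβ j).norm.sub
    (RCLike.continuous_re.comp (S.A.continuous_D hβ j))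
  obtain ⟨x₀, hmax⟩ := S.exists_max hFc (fun g x => by simp only [hF, S.D_smul])
  have hF0 : 0 < F x₀ := lt_of_lt_of_le (sub_pos.2 hx) (hmax x)
  set z := S.A.D j x₀ with hz
  have hz0 : z ≠ 0 := by
    intro h0
    have : F x₀ = 0 := by
      show ‖S.A.D j x₀‖ - RCLike.re (S.A.D j x₀) = 0
      rw [← hz, h0]; simp
    linarith
  have hn0 : (‖z‖ : K j) ≠ 0 := by
    rw [Ne, RCLike.ofReal_eq_zero]; exact norm_ne_zero_iff.2 hz0
  set c : K j := (starRingEnd (K j)) z / (‖z‖ : K j) - 1 with hc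
  set κ : Lie K := Pi.single j (c • S.A.Z j x₀) with hκ
  have hFz : F x₀ = ‖z‖ - RCLike.re z := rfl
  have hcz : c * z = (‖z‖ : K j) - z := by
    rw [hc, sub_mul, one_mul, div_mul_eq_mul_div, RCLike.conj_mul, sq, mul_div_assoc,
      div_self hn0, mul_one]
  have hccz : c ^ 2 * z = ((-(2 * F x₀) : ℝ) : K j) := by
    rw [sq, mul_assoc, hcz, hc, hFz]
    have h1 : (starRingEnd (K j)) z / (‖z‖ : K j) * (‖z‖ : K j) = (starRingEnd (K j)) z := by
      field_simp
    have h2 : (starRingEnd (K j)) z / (‖z‖ : K j) * z = (‖z‖ : K j) := by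
      rw [div_mul_eq_mul_div, RCLike.conj_mul, sq, mul_div_assoc, div_self hn0, mul_one]
    have h3 : z + (starRingEnd (K j)) z = 2 * (RCLike.re z : K j) := RCLike.add_conj z
    push_cast
    linear_combination h1 - h2 + h3
  have hcrit : dForm 𝓘(ℝ, E) (S.A.H κ) x₀ = 0 := by
    refine ContinuousLinearMap.ext fun u => ?_
    rw [hκ, S.A.dH_single hβ, pr_smul_left]
    obtain ⟨γ, hγ0, hγ⟩ := exists_curve (E := E) x₀ u
    have hD := S.A.hasDerivAt_D hβ j hγ0 hγ
    have hD0 : S.A.D j (γ 0) ≠ 0 := by rw [hγ0]; exact hz0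
    have h1 := (hasDerivAt_norm' hD hD0).sub (hasDerivAt_re hD)
    have h2 : IsLocalMax (fun s => ‖S.A.D j (γ s)‖ - RCLike.re (S.A.D j (γ s))) 0 := by
      refine Filter.Eventually.of_forall fun s => ?_
      have := hmax (γ s)
      rw [← hγ0] at this
      exact this
    have h3 := h2.hasDerivAt_eq_zero h1
    rw [hγ0, ← hz, ← map_sub] at h3
    have h4 : (0 : TangentSpace 𝓘(ℝ, E) x₀ →L[ℝ] ℝ) u = 0 := rfl
    rw [h4, ← h3, hc]
    congr 1
    ring
  have hval : S.A.H κ x₀ = 2 * F x₀ := by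
    rw [hκ, S.A.H_single, pr_smul_left, pr_self]
    have : S.A.Z j x₀ = S.A.Z j x₀ := rfl
    rw [show c * (2 * qf (S.A.Z j x₀)) = 2 * (c * z) by rw [hz]; unfold SF.D; ring, hcz, hFz]
    rw [show (2 : K j) = ((2:ℝ) : K j) by push_cast; rfl, RCLike.re_ofReal_mul, map_sub,
      RCLike.ofReal_re]
  -- the period
  set w := Real.sqrt (2 * F x₀) with hw
  have hw0 : 0 < w := Real.sqrt_pos.2 (by linarith)
  have hw2 : w ^ 2 = 2 * F x₀ := Real.sq_sqrt (by linarith)
  refine S.closed_of_crit hcrit hval (by linarith) (T := 2 * Real.pi / w)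
    (div_pos (by positivity) hw0) ?_
  have hone : expG ((2 * Real.pi / w) • κ) = 1 := by
    funext i
    show expSL (((2 * Real.pi / w) • κ) i) = 1
    by_cases hi : i = j
    · subst hi
      apply Subtype.ext
      show NormedSpace.exp (sl ((2 * Real.pi / w) • (κ i))) = 1
      rw [sl_smul]
      apply exp_of_sq_neg hw0.ne'
      rw [sl_mul_self, hκ, Pi.single_eq_same, qf_smul]
      have : qf (S.A.Z i x₀) = z := rfl
      rw [this, hccz, hw2, RCLike.real_smul_eq_coe_smul (K := K i)]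
    · have : ((2 * Real.pi / w) • κ) i = 0 := by
        rw [Pi.smul_apply, hκ, Pi.single_eq_of_ne hi, smul_zero]
      rw [this, expSL_zero]
  rw [hone]
  exact Γ.one_mem

end Setup

end Run7.h986.NS
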