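import Mathlib
import Pool.Agent.Run7.h986.NS.Ell

/-! The case in which all Casimir functions are real and nonnegative. -/

open scoped Topology Manifold
open scoped ContDiff
open Set Metric Bundle Pool.Agent.Helper186

noncomputable section

namespace Run7.h986.NS

open Pool.Agent.H826R2.Wein

set_option linter.unusedSectionVars false

variable {E : Type*} [NormedAddCommGroup E] [NormedSpace ℝ E] [FiniteDimensional ℝ E]
  {P : Type*} [TopologicalSpace P] [ChartedSpace E P] [IsManifold 𝓘(ℝ, E) ∞ P]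
  {ι : Type*} [Fintype ι] [DecidableEq ι] {K : ι → Type*} [∀ j, RCLike (K j)]

namespace Setup

variable [MulAction (Grp K) P] {β : (x : P) → TangentSpace 𝓘(ℝ, E) x →L[ℝ] ℝ}
  {R : (x : P) → TangentSpace 𝓘(ℝ, E) x} {Γ : Subgroup (Grp K)} (S : Setup β R Γ)

/-- all Casimir functions are real and nonnegative -/
def NN : Prop := ∀ (j : ι) (x : P), RCLike.im (S.A.D j x) = 0 ∧ 0 ≤ RCLike.re (S.A.D j x)

variable {S}

lemma NN.eq_re (hN : S.NN) (j : ι) (x : P) :
    S.A.D j x = ((RCLike.re (S.A.D j x) : ℝ) : K j) := by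
  conv_lhs => rw [← RCLike.re_add_im (S.A.D j x), (hN j x).1]
  simp

/-- the derivative of a Casimir function is real -/
lemma NN.im_deriv (hN : S.NN) (j : ι) (x : P) (u : TangentSpace 𝓘(ℝ, E) x) :
    RCLike.im (pr (S.A.Z j x) (S.A.Z' S.contact.smooth j x u)) = 0 := by
  obtain ⟨γ, hγ0, hγ⟩ := exists_curve (E := E) x u
  have hD := hasDerivAt_im (S.A.hasDerivAt_D S.contact.smooth j hγ0 hγ)
  have h1 : (fun s => RCLike.im (S.A.D j (γ s))) = fun _ => 0 := by
    funext s; exact (hN j _).1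
  rw [h1] at hD
  exact hD.unique (hasDerivAt_const (0:ℝ) (0:ℝ))

/-- at a zero of a Casimir function the moment map vanishes -/
lemma NN.Z_eq_zero [T2Space P] (hN : S.NN) {j : ι} {x : P} (h : S.A.D j x = 0) :
    S.A.Z j x = 0 := by
  have hβ := S.contact.smooth
  have hcrit : dForm 𝓘(ℝ, E) (S.A.H (Pi.single j (S.A.Z j x))) x = 0 := by
    refine ContinuousLinearMap.ext fun u => ?_
    rw [S.A.dH_single hβ]
    obtain ⟨γ, hγ0, hγ⟩ := exists_curve (E := E) x u
    have hD := hasDerivAt_re (S.A.hasDerivAt_D hβ j hγ0 hγ)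
    have h2 : IsLocalMin (fun s => RCLike.re (S.A.D j (γ s))) 0 := by
      refine Filter.Eventually.of_forall fun s => ?_
      show RCLike.re (S.A.D j (γ 0)) ≤ _
      rw [hγ0, h, map_zero]
      exact (hN j _).2
    exact h2.hasDerivAt_eq_zero hD
  have hval : S.A.H (Pi.single j (S.A.Z j x)) x = 0 := by
    rw [S.A.H_single, pr_self]
    have : qf (S.A.Z j x) = 0 := h
    rw [this]; simp
  obtain ⟨C, hC, hb⟩ := S.fixed (S.X_eq_zero hcrit hval)
  have h3 := nilp_bounded hC hb (j := j) (by rw [Pi.single_eq_same]; exact h)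
  rwa [Pi.single_eq_same] at h3

/-- the moment map is not degenerate at its zeros -/
lemma NN.exists_dir [T2Space P] {j : ι} {x : P} (hZ : S.A.Z j x = 0) :
    ∃ u : TangentSpace 𝓘(ℝ, E) x, qf (S.A.Z' S.contact.smooth j x u) ≠ 0 := by
  have hβ := S.contact.smooth
  by_contra hcon
  push Not at hcon
  have hpol : ∀ u u' : TangentSpace 𝓘(ℝ, E) x,
      pr (S.A.Z' hβ j x u) (S.A.Z' hβ j x u') = 0 := by
    intro u u'
    have h1 := hcon (u + u')
    rw [S.A.Z'_add, qf_add, hcon u, hcon u', zero_add, zero_add] at h1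
    exact h1
  have hzero : ∀ v : Fin 3 → K j, S.A.H (Pi.single j v) x = 0 := by
    intro v
    rw [S.A.H_single, hZ]
    simp [pr]
  have hZ'0 : ∀ u : TangentSpace 𝓘(ℝ, E) x, S.A.Z' hβ j x u = 0 := by
    intro u
    have hcrit : dForm 𝓘(ℝ, E) (S.A.H (Pi.single j (S.A.Z' hβ j x u))) x = 0 := by
      refine ContinuousLinearMap.ext fun u' => ?_
      rw [S.A.dH_single hβ, hpol, map_zero]
      rfl
    obtain ⟨C, hC, hb⟩ := S.fixed (S.X_eq_zero hcrit (hzero _))
    have h3 := nilp_bounded hC hb (j := j) (by rw [Pi.single_eq_same]; exact hcon u)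
    rwa [Pi.single_eq_same] at h3
  have hcrit : dForm 𝓘(ℝ, E) (S.A.H (Pi.single j (dg (1 : K j)))) x = 0 := by
    refine ContinuousLinearMap.ext fun u' => ?_
    rw [S.A.dH_single hβ, hZ'0]
    simp [pr]
  obtain ⟨C, hC, hb⟩ := S.fixed (S.X_eq_zero hcrit (hzero _))
  exact hyp_unbounded hC hb (j := j) (by rw [Pi.single_eq_same])

variable (S) in
/-- the function which is maximised -/
def Lam (a : ι → ℝ) (x : P) : ℝ := ∑ j, a j * Real.sqrt (RCLike.re (S.A.D j x))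

/-- the derivative of the smooth part at a maximum vanishes -/
lemma smooth_part (hN : S.NN) {a : ι → ℝ} (ha : ∀ j, 0 < a j) {x₀ : P}
    (hmax : ∀ x, S.Lam a x ≤ S.Lam a x₀) {γ : ℝ → P} (hγ0 : γ 0 = x₀)
    {u : TangentSpace 𝓘(ℝ, E) x₀}
    (hγ : HasMFDerivAt 𝓘(ℝ, ℝ) 𝓘(ℝ, E) γ 0 ((1 : ℝ →L[ℝ] ℝ).smulRight (u : E))) :
    HasDerivAt (fun s => ∑ j ∈ Finset.univ.filter (fun j => 0 < RCLike.re (S.A.D j x₀)),
      a j * Real.sqrt (RCLike.re (S.A.D j (γ s)))) 0 0 ∧
    ∑ j ∈ Finset.univ.filter (fun j => 0 < RCLike.re (S.A.D j x₀)),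
      a j * (RCLike.re (pr (S.A.Z j x₀) (S.A.Z' S.contact.smooth j x₀ u)) /
        (2 * Real.sqrt (RCLike.re (S.A.D j x₀)))) = 0 := by
  set J := Finset.univ.filter (fun j => 0 < RCLike.re (S.A.D j x₀)) with hJ
  have hd : HasDerivAt (fun s => ∑ j ∈ J, a j * Real.sqrt (RCLike.re (S.A.D j (γ s))))
      (∑ j ∈ J, a j * (RCLike.re (pr (S.A.Z j x₀) (S.A.Z' S.contact.smooth j x₀ u)) /
        (2 * Real.sqrt (RCLike.re (S.A.D j x₀))))) 0 := by
    refine HasDerivAt.fun_sum fun j hj => ?_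
    have hj0 : RCLike.re (S.A.D j (γ 0)) ≠ 0 := by
      rw [hγ0]
      exact (Finset.mem_filter.1 hj).2.ne'
    have h1 := ((hasDerivAt_re (S.A.hasDerivAt_D S.contact.smooth j hγ0 hγ)).sqrt hj0).const_mul
      (a j)
    rw [hγ0] at h1
    exact h1
  have hsplit : ∀ x, ∑ j ∈ J, a j * Real.sqrt (RCLike.re (S.A.D j x)) ≤ S.Lam a x := by
    intro x
    refine Finset.sum_le_sum_of_subset_of_nonneg (Finset.subset_univ _) ?_
    intro j _ _
    exact mul_nonneg (ha j).le (Real.sqrt_nonneg _)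
  have hx₀ : ∑ j ∈ J, a j * Real.sqrt (RCLike.re (S.A.D j x₀)) = S.Lam a x₀ := by
    refine Finset.sum_subset (Finset.subset_univ _) ?_
    intro j _ hj
    have h1 : ¬ 0 < RCLike.re (S.A.D j x₀) := by
      intro h; exact hj (Finset.mem_filter.2 ⟨Finset.mem_univ _, h⟩)
    have h2 : RCLike.re (S.A.D j x₀) = 0 := le_antisymm (not_lt.1 h1) (hN j x₀).2
    rw [h2, Real.sqrt_zero, mul_zero]
  have hmax' : IsLocalMax (fun s => ∑ j ∈ J, a j * Real.sqrt (RCLike.re (S.A.D j (γ s)))) 0 := by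
    refine Filter.Eventually.of_forall fun s => ?_
    show _ ≤ ∑ j ∈ J, a j * Real.sqrt (RCLike.re (S.A.D j (γ 0)))
    rw [hγ0, hx₀]
    exact (hsplit _).trans (hmax _)
  have h0 := hmax'.hasDerivAt_eq_zero hd
  exact ⟨h0 ▸ hd, h0⟩

/-- at a maximum all Casimir functions are positive -/
lemma NN.pos_of_max [T2Space P] (hN : S.NN) {a : ι → ℝ} (ha : ∀ j, 0 < a j) {x₀ : P}
    (hmax : ∀ x, S.Lam a x ≤ S.Lam a x₀) (j : ι) : 0 < RCLike.re (S.A.D j x₀) := by
  have hβ := S.contact.smooth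
  by_contra hj
  have hj0 : RCLike.re (S.A.D j x₀) = 0 := le_antisymm (not_lt.1 hj) (hN j x₀).2
  have hD0 : S.A.D j x₀ = 0 := by rw [hN.eq_re j x₀, hj0]; simp
  have hZ := hN.Z_eq_zero hD0
  obtain ⟨u, hu⟩ := NN.exists_dir (S := S) hZ
  obtain ⟨γ, hγ0, hγ⟩ := exists_curve (E := E) x₀ u
  obtain ⟨hS, -⟩ := smooth_part hN ha hmax hγ0 hγ
  set δ := qf (S.A.Z' hβ j x₀ u) with hδ
  -- `D / s ^ 2` tends to `δ`
  have hlim : Filter.Tendsto (fun s : ℝ => S.A.D j (γ s) / ((s:ℝ) : K j) ^ 2) (𝓝[>] 0)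
      (𝓝 δ) := by
    have hi : ∀ i : Fin 3, Filter.Tendsto (fun s : ℝ => S.A.Z j (γ s) i / ((s:ℝ) : K j))
        (𝓝[>] 0) (𝓝 (S.A.Z' hβ j x₀ u i)) := by
      intro i
      have h1 := S.A.hasDerivAt_Z hβ j hγ0 hγ i
      rw [hasDerivAt_iff_tendsto_slope_zero] at h1
      have h2 := h1.mono_left (nhdsWithin_mono (0:ℝ) (fun t (ht : 0 < t) => ht.ne') :
        𝓝[>] (0:ℝ) ≤ 𝓝[≠] 0)
      refine h2.congr' ?_
      filter_upwards [self_mem_nhdsWithin] with t ht
      rw [zero_add, hγ0, hZ, Pi.zero_apply, sub_zero, RCLike.real_smul_eq_coe_mul,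
        RCLike.ofReal_inv, div_eq_inv_mul]
    have h3 := ((hi 0).pow 2).add ((hi 1).mul (hi 2))
    refine h3.congr' ?_
    filter_upwards [self_mem_nhdsWithin] with t ht
    have ht0 : ((t:ℝ) : K j) ≠ 0 := by
      rw [Ne, RCLike.ofReal_eq_zero]; exact (ht : 0 < t).ne'
    show _ = qf (S.A.Z j (γ t)) / _
    unfold qf
    field_simp
  have hre : Filter.Tendsto (fun s : ℝ => RCLike.re (S.A.D j (γ s)) / s ^ 2) (𝓝[>] 0)
      (𝓝 (RCLike.re δ)) := by
    refine ((RCLike.continuous_re.tendsto δ).comp hlim).congr fun s => ?_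
    show RCLike.re (S.A.D j (γ s) / ((s:ℝ) : K j) ^ 2) = _
    rw [← RCLike.ofReal_pow, RCLike.div_re_ofReal]
  have him : Filter.Tendsto (fun s : ℝ => (0:ℝ)) (𝓝[>] (0:ℝ)) (𝓝 (RCLike.im δ)) := by
    refine ((RCLike.continuous_im.tendsto δ).comp hlim).congr fun s => ?_
    show RCLike.im (S.A.D j (γ s) / ((s:ℝ) : K j) ^ 2) = _
    rw [← RCLike.ofReal_pow, div_eq_mul_inv, ← RCLike.ofReal_inv, RCLike.im_mul_ofReal,
      (hN j _).1, zero_mul]
  have him0 : RCLike.im δ = 0 := tendsto_nhds_unique him tendsto_const_nhds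
  have hre0 : 0 ≤ RCLike.re δ :=
    ge_of_tendsto' hre fun s => div_nonneg (hN j _).2 (sq_nonneg s)
  have hpos : 0 < RCLike.re δ := by
    rcases hre0.lt_or_eq with h | h
    · exact h
    · exfalso
      apply hu
      rw [← RCLike.re_add_im δ, him0, ← h]
      simp
  -- the contradiction
  set J := Finset.univ.filter (fun j => 0 < RCLike.re (S.A.D j x₀)) with hJ
  set f : ℝ → ℝ := fun s => ∑ i ∈ J, a i * Real.sqrt (RCLike.re (S.A.D i (γ s))) with hf
  have hjJ : j ∉ J := by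
    intro h
    exact hj (Finset.mem_filter.1 h).2
  have hx₀ : f 0 = S.Lam a x₀ := by
    simp only [hf, hγ0]
    refine Finset.sum_subset (Finset.subset_univ _) ?_
    intro i _ hi
    have h1 : ¬ 0 < RCLike.re (S.A.D i x₀) := by
      intro h; exact hi (Finset.mem_filter.2 ⟨Finset.mem_univ _, h⟩)
    have h2 : RCLike.re (S.A.D i x₀) = 0 := le_antisymm (not_lt.1 h1) (hN i x₀).2
    rw [h2, Real.sqrt_zero, mul_zero]
  have hle : ∀ s, f s + a j * Real.sqrt (RCLike.re (S.A.D j (γ s))) ≤ f 0 := by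
    intro s
    rw [hx₀]
    refine le_trans ?_ (hmax (γ s))
    have h1 : f s + a j * Real.sqrt (RCLike.re (S.A.D j (γ s))) =
        ∑ i ∈ insert j J, a i * Real.sqrt (RCLike.re (S.A.D i (γ s))) := by
      rw [Finset.sum_insert hjJ, add_comm]
    rw [h1]
    refine Finset.sum_le_sum_of_subset_of_nonneg (Finset.subset_univ _) ?_
    intro i _ _
    exact mul_nonneg (ha i).le (Real.sqrt_nonneg _)
  have hslope : Filter.Tendsto (fun s : ℝ => s⁻¹ * (f s - f 0)) (𝓝[>] 0) (𝓝 0) := by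
    have h1 := hS
    rw [hasDerivAt_iff_tendsto_slope_zero] at h1
    have h2 := h1.mono_left (nhdsWithin_mono (0:ℝ) (fun t (ht : 0 < t) => ht.ne') :
      𝓝[>] (0:ℝ) ≤ 𝓝[≠] 0)
    refine h2.congr fun t => ?_
    rw [zero_add, smul_eq_mul]
  have hsq : Filter.Tendsto (fun s : ℝ => a j * Real.sqrt (RCLike.re (S.A.D j (γ s)) / s ^ 2))
      (𝓝[>] 0) (𝓝 (a j * Real.sqrt (RCLike.re δ))) :=
    ((Real.continuous_sqrt.tendsto _).comp hre).const_mul (a j)
  have hsum := hslope.add hsq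
  have hle2 : (0:ℝ) + a j * Real.sqrt (RCLike.re δ) ≤ 0 := by
    refine le_of_tendsto hsum ?_
    filter_upwards [self_mem_nhdsWithin] with s hs
    have hs0 : (0:ℝ) < s := hs
    have h1 : Real.sqrt (RCLike.re (S.A.D j (γ s)) / s ^ 2) =
        Real.sqrt (RCLike.re (S.A.D j (γ s))) / s := by
      rw [Real.sqrt_div (hN j _).2, Real.sqrt_sq hs0.le]
    rw [h1]
    have h2 := hle s
    have h3 : s⁻¹ * (f s - f 0) + a j * (Real.sqrt (RCLike.re (S.A.D j (γ s))) / s) =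
        s⁻¹ * (f s + a j * Real.sqrt (RCLike.re (S.A.D j (γ s))) - f 0) := by
      field_simp
      ring
    rw [h3]
    exact mul_nonpos_of_nonneg_of_nonpos (inv_nonneg.2 hs0.le) (by linarith)
  have h4 : 0 < a j * Real.sqrt (RCLike.re δ) := mul_pos (ha j) (Real.sqrt_pos.2 hpos)
  linarith

end Setup

end Run7.h986.NS
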