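import Mathlib
import Pool.Agent.Run7.h986.NS.Hyp

/-! The main theorem. -/

open scoped Topology Manifold
open scoped ContDiff
open Set Metric Bundle Pool.Agent.Helper186

noncomputable section

namespace Run7.h986.NS

open Pool.Agent.H826R2.Wein

set_option linter.unusedSectionVars false

variable {E : Type*} [NormedAddCommGroup E] [NormedSpace ℝ E] [FiniteDimensional ℝ E]
  {P : Type*} [TopologicalSpace P] [ChartedSpace E P] [IsManifold 𝓘(ℝ, E) ∞ P]
  {ι : Type*} [Fintype ι] [DecidableEq ι] {K : ι → Type*} [∀ j, RCLike (K j)]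

namespace Setup

variable [MulAction (Grp K) P] {β : (x : P) → TangentSpace 𝓘(ℝ, E) x →L[ℝ] ℝ}
  {R : (x : P) → TangentSpace 𝓘(ℝ, E) x} {Γ : Subgroup (Grp K)} (S : Setup β R Γ)

lemma continuous_Lam (a : ι → ℝ) : Continuous (S.Lam a) := by
  unfold Lam
  refine continuous_finsetSum _ fun j _ => continuous_const.mul ?_
  exact Real.continuous_sqrt.comp (RCLike.continuous_re.comp
    (S.A.continuous_D S.contact.smooth j))

/-- **Hyperbolic case.** -/
theorem closed_of_hyperbolic [T2Space P] [Nonempty P] [Nonempty ι] (hN : S.NN)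
    {V : Lie K} {τ : ∀ j, K j} (hτ : ∀ j, RCLike.re (τ j) ≠ 0) (hV : ∀ j, qf (V j) = τ j ^ 2)
    (hΓ : expG V ∈ Γ) : Closed R Γ := by
  have hβ := S.contact.smooth
  set a : ι → ℝ := fun j => |RCLike.re (τ j)| with ha
  have ha0 : ∀ j, 0 < a j := fun j => abs_pos.2 (hτ j)
  obtain ⟨x₀, hmax⟩ := S.exists_max (S.continuous_Lam a) (fun g x => by
    unfold Lam; simp only [S.D_smul])
  have hpos := fun j => hN.pos_of_max ha0 hmax j
  set w : ι → ℝ := fun j => Real.sqrt (RCLike.re (S.A.D j x₀)) with hw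
  have hw0 : ∀ j, 0 < w j := fun j => Real.sqrt_pos.2 (hpos j)
  have hw2 : ∀ j, w j ^ 2 = RCLike.re (S.A.D j x₀) := fun j => Real.sq_sqrt (hpos j).le
  -- the direction
  set r : ι → ℝ := fun j => a j / (2 * w j * RCLike.re (τ j)) with hr
  set κ : Lie K := fun j => (((r j : ℝ) : K j) * τ j) • S.A.Z j x₀ with hκ
  have hcrit : dForm 𝓘(ℝ, E) (S.A.H κ) x₀ = 0 := by
    refine ContinuousLinearMap.ext fun u => ?_
    obtain ⟨γ, hγ0, hγ⟩ := exists_curve (E := E) x₀ u
    obtain ⟨-, hS⟩ := smooth_part hN ha0 hmax hγ0 hγ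
    have hJ : Finset.univ.filter (fun j => 0 < RCLike.re (S.A.D j x₀)) = Finset.univ := by
      refine Finset.filter_true_of_mem fun j _ => hpos j
    rw [hJ] at hS
    rw [S.A.dH_eq hβ]
    have h0 : (0 : TangentSpace 𝓘(ℝ, E) x₀ →L[ℝ] ℝ) u = 0 := rfl
    rw [h0, ← hS]
    refine Finset.sum_congr rfl fun j _ => ?_
    rw [hκ]
    simp only
    rw [pr_smul_left]
    set z := pr (S.A.Z j x₀) (S.A.Z' hβ j x₀ u) with hz
    have him : RCLike.im z = 0 := hN.im_deriv j x₀ u
    rw [mul_assoc, RCLike.re_ofReal_mul, RCLike.mul_re, him, mul_zero, sub_zero, hr]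
    simp only
    have h1 := hτ j
    have h2 := (hw0 j).ne'
    have h3 : Real.sqrt (RCLike.re (S.A.D j x₀)) = w j := rfl
    rw [h3]
    field_simp
  have hval : S.A.H κ x₀ = S.Lam a x₀ := by
    rw [S.A.H_eq]
    unfold Lam
    refine Finset.sum_congr rfl fun j _ => ?_
    rw [hκ]
    simp only
    rw [pr_smul_left, pr_self]
    have h4 : qf (S.A.Z j x₀) = ((RCLike.re (S.A.D j x₀) : ℝ) : K j) := hN.eq_re j x₀
    rw [h4, ← hw2 j]
    have h5 : ((r j : ℝ) : K j) * τ j * (2 * ((w j ^ 2 : ℝ) : K j)) =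
        ((r j * 2 * w j ^ 2 : ℝ) : K j) * τ j := by
      push_cast; ring
    rw [h5, RCLike.re_ofReal_mul, hr]
    have h1 := hτ j
    have h2 := (hw0 j).ne'
    have h3 : Real.sqrt (w j ^ 2) = w j := Real.sqrt_sq (hw0 j).le
    rw [h3]
    field_simp
  have hLam : 0 < S.Lam a x₀ := by
    unfold Lam
    exact Finset.sum_pos (fun j _ => mul_pos (ha0 j) (hw0 j)) Finset.univ_nonempty
  -- conjugacy
  have hconj : ∀ j, ∃ g : Matrix.SpecialLinearGroup (Fin 2) (K j),
      Ad g (κ j) = (1/2 : ℝ) • V j := by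
    intro j
    have hτ0 : τ j ≠ 0 := fun h => hτ j (by rw [h, map_zero])
    refine exists_conj (τ := τ j / 2) (div_ne_zero hτ0 two_ne_zero) ?_ ?_
    · rw [hκ]
      simp only
      rw [qf_smul]
      have h4 : qf (S.A.Z j x₀) = ((RCLike.re (S.A.D j x₀) : ℝ) : K j) := hN.eq_re j x₀
      rw [h4, ← hw2 j]
      have h6 : (r j) ^ 2 * w j ^ 2 = 1 / 4 := by
        rw [hr, ha]
        simp only
        have h1 := hτ j
        have h2 := (hw0 j).ne'
        field_simp
        rw [sq_abs]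
        ring
      have h7 : ((r j : ℝ) : K j) ^ 2 * ((w j ^ 2 : ℝ) : K j) = 1 / 4 := by
        rw [← RCLike.ofReal_pow, ← RCLike.ofReal_mul, h6]
        push_cast
        ring
      linear_combination (τ j) ^ 2 * h7
    · have : ((1/2 : ℝ) • V j) = ((1/2 : K j)) • V j := by
        ext i
        rw [Pi.smul_apply, Pi.smul_apply, RCLike.real_smul_eq_coe_mul, smul_eq_mul]
        congr 1
        push_cast
        rfl
      rw [this, qf_smul, hV j]
      ring
  choose g hg using hconj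
  have hAd : AdG (fun j => g j) κ = (1/2 : ℝ) • V := funext fun j => hg j
  have hcrit1 := S.crit_smul (fun j => g j) hcrit
  have hval1 := S.H_smul (fun j => g j) κ x₀
  rw [hAd] at hcrit1 hval1
  refine S.closed_of_crit hcrit1 (hval1.trans hval) hLam (T := 2) two_pos ?_
  rw [smul_smul]
  norm_num
  exact hΓ

end Setup

open Pool.Agent.H826R2.WStmt in
/-- the strict family of an action -/
def toSF {β : P → Cov E} [MulAction (Grp K) P] (h : SmoothStrictAction (E := E) K β) :
    SF (toForm β) (Lie K) where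
  act v x := expG v • x
  smooth := h.smooth_exp
  zero x := by rw [expG_zero, one_smul]
  add κ s t x := by rw [expG_add, mul_smul]
  strict θ x u := by
    have h1 := congrFun (h.strict (expG θ)) x
    exact congrArg (fun a : Cov E => ev a (u : E)) h1

open Pool.Agent.H826R2.WStmt in
/-- **Main theorem.** -/
theorem main [Nonempty ι] {M : Type*} [TopologicalSpace M] [ChartedSpace E M]
    [IsManifold 𝓘(ℝ, E) ∞ M] [T2Space M] [CompactSpace M] [Nonempty M] [T2Space P]
    (α : M → Cov E) (hα : Pool.Agent.H826R2.WStmt.IsContact α) (R : M → E) (hR : Pool.Agent.H826R2.WStmt.IsReeb α R)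
    [MulAction (Grp K) P] (Γ : Subgroup (Grp K)) (hΓ : Cocompact Γ)
    (hfin : ∀ x : P, {γ : Γ | γ • x = x}.Finite)
    (q : P → M) (hq : IsQuotientMap E q Γ)
    (hact : SmoothStrictAction K (pull (E := E) q α)) :
    ∃ (c : ℝ → M) (T : ℝ), IsPeriodicOrbit R c T := by
  have hq' := hq.toWein
  have hc := hq'.isContact_pull hα.toWein
  have hr := hq'.isReeb_lift hα.toWein hR.toWein
  have : Nonempty P := by
    obtain ⟨y⟩ := (inferInstance : Nonempty M)
    obtain ⟨x, -⟩ := hq.surj y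
    exact ⟨x⟩
  let S : Setup (pullForm 𝓘(ℝ, E) 𝓘(ℝ, E) q (toForm α)) (liftField hq'
      (fun x => (R x : TangentSpace 𝓘(ℝ, E) x))) Γ :=
    { contact := hc
      reeb := hr
      A := toSF hact
      act := fun v x => rfl
      smooth := hact.smooth
      strict := fun g x u => by
        have h1 := congrFun (hact.strict g) x
        exact congrArg (fun a : Cov E => ev a (u : E)) h1
      stab := stab_bounded hq' hΓ hact.cont hfin
      dom := by
        obtain ⟨C, hC, h⟩ := hq'.exists_domain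
        exact ⟨C, hC, fun x => (h x).elim fun γ hγ => ⟨(γ : Grp K), hγ⟩⟩ }
  have hcl : Setup.Closed (liftField hq' (fun x => (R x : TangentSpace 𝓘(ℝ, E) x))) Γ := by
    by_cases hN : S.NN
    · obtain ⟨γ, hγ, V, τ, hτ, hV, hexp⟩ := exists_hyperbolic hΓ
      exact S.closed_of_hyperbolic hN hτ hV (by rw [hexp]; exact hγ)
    · obtain ⟨j, x, hx⟩ : ∃ j x, RCLike.re (S.A.D j x) < ‖S.A.D j x‖ := by
        by_contra hcon
        push Not at hcon
        apply hN
        intro j x
        refine ⟨RCLike.im_eq_zero_of_le (hcon j x), (norm_nonneg _).trans (hcon j x)⟩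
      exact S.closed_of_elliptic hx
  obtain ⟨c, T, hT, hint, γ, hγ, hper⟩ := hcl
  refine ⟨fun t => q (c t), T, hT, ?_, fun t => ?_⟩
  · intro t
    have h2 := HasMFDerivAt.comp t (g := q) (f := c) (hq'.mdiff (c t)).hasMFDerivAt (hint t)
    refine h2.congr_mfderiv ?_
    refine ContinuousLinearMap.ext fun (r : ℝ) => ?_
    have h3 := hq'.liftField_spec (fun x => (R x : TangentSpace 𝓘(ℝ, E) x)) (c t)
    have h4 : mfderiv 𝓘(ℝ, E) 𝓘(ℝ, E) q (c t)
        (r • liftField hq' (fun x => (R x : TangentSpace 𝓘(ℝ, E) x)) (c t)) =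
        r • mfderiv 𝓘(ℝ, E) 𝓘(ℝ, E) q (c t)
          (liftField hq' (fun x => (R x : TangentSpace 𝓘(ℝ, E) x)) (c t)) := map_smul _ _ _
    rw [h3] at h4
    exact h4
  · show q (c (t + T)) = q (c t)
    rw [hper]
    exact hq'.proj_smul ⟨γ, hγ⟩ (c t)

end Run7.h986.NS
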